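import Pool.Agent.Lib.MP_0775d3_lc.Sum.Defs

/-! Freiman models in the integers. -/

namespace MP0775d3.Sum

/-- In a free `ℤ`-module of finite rank there is a linear form which does not vanish at finitely
many given nonzero vectors. -/
theorem exists_form {H : Type*} [AddCommGroup H] [Module.Free ℤ H] [Module.Finite ℤ H]
    (D : Finset H) (hD : ∀ x ∈ D, x ≠ 0) : ∃ ψ : H →+ ℤ, ∀ x ∈ D, ψ x ≠ 0 := by
  classical
  let B := Module.Free.chooseBasis ℤ H
  let e := Fintype.equivFin (Module.Free.ChooseBasisIndex ℤ H)
  let P : H → Polynomial ℤ := fun x => ∑ i, Polynomial.C (B.repr x i) * Polynomial.X ^ (e i : ℕ)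
  have hP : ∀ x, x ≠ 0 → P x ≠ 0 := by
    intro x hx h0
    apply hx
    apply B.repr.injective
    rw [map_zero]
    ext i
    have h1 := congrArg (fun Q : Polynomial ℤ => Q.coeff (e i : ℕ)) h0
    simp only [P, Polynomial.finset_sum_coeff, Polynomial.coeff_C_mul_X_pow,
      Polynomial.coeff_zero] at h1
    rw [Finset.sum_eq_single i] at h1
    · simpa using h1
    · intro j _ hj
      rw [if_neg]
      intro h
      exact hj (e.injective (Fin.val_injective h)).symm
    · intro h
      exact absurd (Finset.mem_univ _) h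
  have hprod : (∏ x ∈ D, P x) ≠ 0 := Finset.prod_ne_zero_iff.mpr fun x hx => hP x (hD x hx)
  obtain ⟨M, hM⟩ : ∃ M : ℤ, (∏ x ∈ D, P x).eval M ≠ 0 := by
    by_contra hcon
    push Not at hcon
    exact hprod (Polynomial.funext fun r => by rw [hcon r, Polynomial.eval_zero])
  rw [Polynomial.eval_prod, Finset.prod_ne_zero_iff] at hM
  refine ⟨(B.constr ℤ (fun i => M ^ (e i : ℕ))).toAddMonoidHom, ?_⟩
  intro x hx
  have h2 := hM x hx
  simp only [P, Polynomial.eval_finset_sum, Polynomial.eval_mul, Polynomial.eval_C,
    Polynomial.eval_pow, Polynomial.eval_X] at h2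
  show (B.constr ℤ (fun i => M ^ (e i : ℕ))) x ≠ 0
  rw [Module.Basis.constr_apply_fintype]
  simpa using h2

/-- Finite subsets of a torsion free abelian group have an integer model. -/
theorem exists_model {G : Type*} [AddCommGroup G] [IsAddTorsionFree G] {n : ℕ} (a b : Fin n → G)
    (ha : Function.Injective a) (hb : Function.Injective b) :
    ∃ a' b' : Fin n → ℤ, Function.Injective a' ∧ Function.Injective b' ∧
      ∀ i j k l, a' i + b' j = a' k + b' l ↔ a i + b j = a k + b l := by
  classical
  let H : AddSubgroup G := AddSubgroup.closure (Set.range a ∪ Set.range b)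
  have hfg : H.FG := by
    rw [AddSubgroup.fg_iff]
    exact ⟨_, rfl, (Set.finite_range a).union (Set.finite_range b)⟩
  have : AddGroup.FG H := (AddGroup.fg_iff_addSubgroup_fg H).mpr hfg
  have hfin : Module.Finite ℤ H := Module.Finite.iff_addGroup_fg.mpr this
  have hfree : Module.Free ℤ H := inferInstance
  have ha' : ∀ i, a i ∈ H := fun i => AddSubgroup.subset_closure (Or.inl ⟨i, rfl⟩)
  have hb' : ∀ i, b i ∈ H := fun i => AddSubgroup.subset_closure (Or.inr ⟨i, rfl⟩)
  let α : Fin n → H := fun i => ⟨a i, ha' i⟩
  let β : Fin n → H := fun i => ⟨b i, hb' i⟩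
  let D : Finset H := ((Finset.univ : Finset (Fin n × Fin n × Fin n × Fin n)).image
    (fun t => α t.1 - α t.2.1 + (β t.2.2.1 - β t.2.2.2))).filter (fun x => x ≠ 0)
  obtain ⟨ψ, hψ⟩ := exists_form D (fun x hx => (Finset.mem_filter.mp hx).2)
  have key : ∀ i k j l, ψ (α i - α k + (β j - β l)) = 0 → α i - α k + (β j - β l) = 0 := by
    intro i k j l h
    by_contra hne
    refine hψ (α i - α k + (β j - β l)) ?_ h
    refine Finset.mem_filter.mpr ⟨?_, hne⟩
    exact Finset.mem_image.mpr ⟨(i, k, j, l), Finset.mem_univ _, rfl⟩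
  refine ⟨fun i => ψ (α i), fun j => ψ (β j), ?_, ?_, ?_⟩
  · intro i k h
    rcases isEmpty_or_nonempty (Fin n) with hE | ⟨⟨l⟩⟩
    · exact (hE.false i).elim
    · have h1 := key i k l l (by simp only [map_add, map_sub]; simp only at h; rw [h]; ring)
      rw [sub_self, add_zero, sub_eq_zero] at h1
      exact ha (congrArg Subtype.val h1)
  · intro j l h
    have h1 := key j j j l (by simp only [map_add, map_sub]; simp only at h; rw [h]; ring)
    rw [sub_self, zero_add, sub_eq_zero] at h1
    exact hb (congrArg Subtype.val h1)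
  · intro i j k l
    constructor
    · intro h
      have h1 := key i k j l (by simp only [map_add, map_sub]; simp only at h; linarith)
      have h2 : α i + β j = α k + β l := by
        have : α i + β j - (α k + β l) = α i - α k + (β j - β l) := by abel
        exact sub_eq_zero.mp (this.trans h1)
      exact congrArg Subtype.val h2
    · intro h
      have h2 : α i + β j = α k + β l := Subtype.ext h
      simp only
      rw [← map_add, ← map_add, h2]

end MP0775d3.Sum
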