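import Pool.Agent.Lib.MP_0775d3_lc.Sum.Struct
import Pool.Agent.Lib.MP_0775d3_lc.Sum.Freiman

/-! Integer models of finite subsets of groups whose finite subgroups need few generators. -/

namespace MP0775d3.Sum

theorem finite_sums {G : Type*} [Add G] {n : ℕ} (a b : Fin n → G) (I J : Finset (Fin n)) :
    ({g : G | ∃ i ∈ I, ∃ j ∈ J, a i + b j = g} : Set G).Finite := by
  refine ((Set.finite_univ (α := Fin n × Fin n)).image (fun x => a x.1 + b x.2)).subset ?_
  rintro g ⟨i, _, j, _, rfl⟩
  exact ⟨(i, j), trivial, rfl⟩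

theorem numSums_of_isEmpty {G : Type*} [Add G] {n : ℕ} [IsEmpty (Fin n)] (a b : Fin n → G)
    (I J : Finset (Fin n)) : numSums a b I J = 0 := by
  unfold numSums
  have : ({g : G | ∃ i ∈ I, ∃ j ∈ J, a i + b j = g} : Set G) = ∅ := by
    ext g
    simp only [Set.mem_ofPred_eq, Set.mem_empty_iff_false, iff_false]
    rintro ⟨i, _⟩
    exact IsEmpty.false i
  rw [this, Set.ncard_empty]

theorem numSums_le {G H : Type*} [Add G] [Add H] {n : ℕ} (a b : Fin n → G) (a' b' : Fin n → H)
    (I J : Finset (Fin n))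
    (h : ∀ i ∈ I, ∀ j ∈ J, ∀ k ∈ I, ∀ l ∈ J, a' i + b' j = a' k + b' l → a i + b j = a k + b l) :
    numSums a b I J ≤ numSums a' b' I J := by
  classical
  rcases isEmpty_or_nonempty (Fin n) with hE | hE
  · rw [numSums_of_isEmpty]
    exact Nat.zero_le _
  unfold numSums
  have hch : ∀ g ∈ ({g : G | ∃ i ∈ I, ∃ j ∈ J, a i + b j = g} : Set G), ∃ i ∈ I, ∃ j ∈ J,
      a i + b j = g := fun g hg => hg
  choose! u hu v hv huv using hch
  refine Set.ncard_le_ncard_of_injOn (fun g => a' (u g) + b' (v g)) ?_ ?_ (finite_sums a' b' I J)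
  · intro g hg
    exact ⟨u g, hu g hg, v g, hv g hg, rfl⟩
  · intro g hg g' hg' hgg
    rw [← huv g hg, ← huv g' hg']
    exact h _ (hu g hg) _ (hv g hg) _ (hu g' hg') _ (hv g' hg') hgg

theorem val_diff {c : ℕ} (hc : 0 < c) (x y : ZMod c)
    (h : decide (c ≤ 2 * x.val) = decide (c ≤ 2 * y.val)) :
    2 * |(x.val : ℤ) - y.val| < c := by
  have : NeZero c := ⟨hc.ne'⟩
  have h1 := ZMod.val_lt x
  have h2 := ZMod.val_lt y
  rw [decide_eq_decide] at h
  rcases abs_cases ((x.val : ℤ) - y.val) with ⟨h3, _⟩ | ⟨h3, _⟩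
  · rw [h3]
    by_cases h4 : c ≤ 2 * x.val
    · have h5 := h.mp h4
      omega
    · omega
  · rw [h3]
    by_cases h4 : c ≤ 2 * x.val
    · have h5 := h.mp h4
      omega
    · have h5 : ¬ c ≤ 2 * y.val := fun h6 => h4 (h.mpr h6)
      omega

/-- Integer models. -/
theorem exists_model' {G : Type*} [AddCommGroup G] {t : ℕ} (hG : FinSubgroupsGen G t) {n : ℕ}
    (a b : Fin n → G) (ha : Function.Injective a) (hb : Function.Injective b) :
    ∃ (a' b' : Fin n → ℤ) (κ κ' : Fin n → Fin t → Bool), Function.Injective a' ∧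
      Function.Injective b' ∧
      (∀ i j k l, a' i + b' j = a' k + b' l → a i + b j = a k + b l) ∧
      (∀ I J, numSums a' b' I J ≤ 2 ^ t * numSums a b I J) ∧
      (∀ i j k l, κ i = κ k → κ' j = κ' l → a i + b j = a k + b l →
        a' i + b' j = a' k + b' l) := by
  classical
  obtain ⟨r, c, hc, ⟨Φ⟩⟩ := exists_structure hG (Set.range a ∪ Set.range b)
    ((Set.finite_range a).union (Set.finite_range b))
  have hne : ∀ i, NeZero (c i) := fun i => ⟨(hc i).ne'⟩
  have ha' : ∀ i, a i ∈ AddSubgroup.closure (Set.range a ∪ Set.range b) :=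
    fun i => AddSubgroup.subset_closure (Or.inl ⟨i, rfl⟩)
  have hb' : ∀ i, b i ∈ AddSubgroup.closure (Set.range a ∪ Set.range b) :=
    fun i => AddSubgroup.subset_closure (Or.inr ⟨i, rfl⟩)
  let α : Fin n → (Fin r → ℤ) × (∀ i, ZMod (c i)) := fun i => Φ ⟨a i, ha' i⟩
  let β : Fin n → (Fin r → ℤ) × (∀ i, ZMod (c i)) := fun i => Φ ⟨b i, hb' i⟩
  have hα : Function.Injective α := fun i j h => ha (congrArg Subtype.val (Φ.injective h))
  have hβ : Function.Injective β := fun i j h => hb (congrArg Subtype.val (Φ.injective h))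
  have hαβ : ∀ i j k l, α i + β j = α k + β l ↔ a i + b j = a k + b l := by
    intro i j k l
    constructor
    · intro h
      have h1 : Φ (⟨a i, ha' i⟩ + ⟨b j, hb' j⟩) = Φ (⟨a k, ha' k⟩ + ⟨b l, hb' l⟩) := by
        rw [map_add, map_add]
        exact h
      exact congrArg Subtype.val (Φ.injective h1)
    · intro h
      have h1 : (⟨a i, ha' i⟩ + ⟨b j, hb' j⟩ : AddSubgroup.closure (Set.range a ∪ Set.range b)) =
          ⟨a k, ha' k⟩ + ⟨b l, hb' l⟩ := Subtype.ext h
      have h2 := congrArg Φ h1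
      rw [map_add, map_add] at h2
      exact h2
  -- lifts
  let L : (Fin r → ℤ) × (∀ i, ZMod (c i)) → (Fin r → ℤ) × (Fin t → ℤ) :=
    fun x => (x.1, fun i => ((x.2 i).val : ℤ))
  have hL : Function.Injective L := by
    intro x y h
    have h1 := Prod.ext_iff.mp h
    refine Prod.ext h1.1 (funext fun i => ?_)
    have h2 : ((x.2 i).val : ℤ) = (y.2 i).val := congrFun h1.2 i
    exact ZMod.val_injective _ (by exact_mod_cast h2)
  have hmod : ∀ i (x y : ZMod (c i)), (x + y).val =
      x.val + y.val - (if c i ≤ x.val + y.val then c i else 0) := by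
    intro i x y
    rw [ZMod.val_add]
    have h1 := ZMod.val_lt x
    have h2 := ZMod.val_lt y
    split_ifs with h
    · rw [Nat.mod_eq_sub_mod h, Nat.mod_eq_of_lt (by omega)]
    · rw [Nat.mod_eq_of_lt (by omega), Nat.sub_zero]
  have hproj : ∀ x y z w, L x + L y = L z + L w → x + y = z + w := by
    intro x y z w h
    have h1 := Prod.ext_iff.mp h
    refine Prod.ext h1.1 (funext fun i => ?_)
    have h2 : ((x.2 i).val : ℤ) + (y.2 i).val = (z.2 i).val + (w.2 i).val := congrFun h1.2 i
    have h3 : (x.2 i).val + (y.2 i).val = (z.2 i).val + (w.2 i).val := by exact_mod_cast h2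
    show x.2 i + y.2 i = z.2 i + w.2 i
    apply ZMod.val_injective
    rw [ZMod.val_add, ZMod.val_add, h3]
  obtain ⟨a', b', ha1, hb1, hab⟩ := exists_model (fun i => L (α i)) (fun i => L (β i))
    (fun i j h => hα (hL h)) (fun i j h => hβ (hL h))
  refine ⟨a', b', fun i k => decide (c k ≤ 2 * ((α i).2 k).val),
    fun i k => decide (c k ≤ 2 * ((β i).2 k).val), ha1, hb1, ?_, ?_, ?_⟩
  · intro i j k l h
    exact (hαβ i j k l).mp (hproj _ _ _ _ ((hab i j k l).mp h))
  · intro I J
    rcases isEmpty_or_nonempty (Fin n) with hE | hE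
    · rw [numSums_of_isEmpty]
      exact Nat.zero_le _
    have h1 : numSums a' b' I J ≤ (({g : G | ∃ i ∈ I, ∃ j ∈ J, a i + b j = g} : Set G) ×ˢ
        (Set.univ : Set (Fin t → Bool))).ncard := by
      unfold numSums
      have hch : ∀ g ∈ ({g : ℤ | ∃ i ∈ I, ∃ j ∈ J, a' i + b' j = g} : Set ℤ), ∃ i ∈ I, ∃ j ∈ J,
          a' i + b' j = g := fun g hg => hg
      choose! u hu v hv huv using hch
      refine Set.ncard_le_ncard_of_injOn (fun g => (a (u g) + b (v g),
        fun k => decide (c k ≤ ((α (u g)).2 k).val + ((β (v g)).2 k).val))) ?_ ?_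
        ((finite_sums a b I J).prod Set.finite_univ)
      · intro g hg
        exact ⟨⟨u g, hu g hg, v g, hv g hg, rfl⟩, trivial⟩
      · intro g hg g' hg' hgg
        obtain ⟨e1, e2⟩ := Prod.ext_iff.mp hgg
        have e3 := (hαβ _ _ _ _).mpr e1
        rw [← huv g hg, ← huv g' hg']
        refine (hab _ _ _ _).mpr ?_
        obtain ⟨e4, e5⟩ := Prod.ext_iff.mp e3
        refine Prod.ext e4 (funext fun k => ?_)
        have e6 : (α (u g)).2 k + (β (v g)).2 k = (α (u g')).2 k + (β (v g')).2 k := congrFun e5 k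
        have e7 := congrArg ZMod.val e6
        rw [hmod, hmod] at e7
        have e8 := congrFun e2 k
        simp only [decide_eq_decide] at e8
        show (((α (u g)).2 k).val : ℤ) + ((β (v g)).2 k).val =
          ((α (u g')).2 k).val + ((β (v g')).2 k).val
        by_cases h8 : c k ≤ ((α (u g)).2 k).val + ((β (v g)).2 k).val
        · have h9 := e8.mp h8
          rw [if_pos h8, if_pos h9] at e7
          omega
        · have h9 : ¬ c k ≤ ((α (u g')).2 k).val + ((β (v g')).2 k).val := fun h => h8 (e8.mpr h)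
          rw [if_neg h8, if_neg h9] at e7
          omega
    refine h1.trans (le_of_eq ?_)
    rw [Set.ncard_prod, Set.ncard_univ, Nat.card_eq_fintype_card]
    unfold numSums
    simp [mul_comm]
  · intro i j k l hκ hκ' h
    have e3 := (hαβ i j k l).mpr h
    refine (hab i j k l).mpr ?_
    obtain ⟨e4, e5⟩ := Prod.ext_iff.mp e3
    refine Prod.ext e4 (funext fun m => ?_)
    have e6 : (α i).2 m + (β j).2 m = (α k).2 m + (β l).2 m := congrFun e5 m
    have e7 := congrArg ZMod.val e6
    rw [ZMod.val_add, ZMod.val_add] at e7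
    have e8 := val_diff (hc m) _ _ (congrFun hκ m)
    have e9 := val_diff (hc m) _ _ (congrFun hκ' m)
    show (((α i).2 m).val : ℤ) + ((β j).2 m).val = ((α k).2 m).val + ((β l).2 m).val
    have e10 : ((c m : ℕ) : ℤ) ∣ ((((α i).2 m).val : ℤ) + ((β j).2 m).val) -
        (((α k).2 m).val + ((β l).2 m).val) := by
      have h11 : (((α k).2 m).val + ((β l).2 m).val) ≡ (((α i).2 m).val + ((β j).2 m).val)
        [MOD c m] := e7.symm
      have := h11.dvd
      push_cast at this
      exact this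
    have e11 : ((((α i).2 m).val : ℤ) + ((β j).2 m).val) -
        (((α k).2 m).val + ((β l).2 m).val) = 0 := by
      refine Int.eq_zero_of_abs_lt_dvd e10 ?_
      have h12 : ((((α i).2 m).val : ℤ) + ((β j).2 m).val) -
        (((α k).2 m).val + ((β l).2 m).val) = ((((α i).2 m).val : ℤ) - ((α k).2 m).val) +
        ((((β j).2 m).val : ℤ) - ((β l).2 m).val) := by ring
      rw [h12]
      refine (abs_add_le _ _).trans_lt ?_
      linarith
    linarith

end MP0775d3.Sum
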