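import Pool.Agent.Lib.MP_0775d3_lc.Sum.Lower
import Pool.Agent.Lib.MP_0775d3_lc.Sum.Model

/-! The lower bound for the rigidity of generic sum matrices. -/

set_option linter.unusedSectionVars false

namespace MP0775d3.Sum

open Finset Matrix

theorem rank_submatrix_le' {F : Type*} [Field F] {X Y X' Y' : Type*} [Fintype X] [Fintype Y]
    [Fintype X'] [Fintype Y'] [DecidableEq X] [DecidableEq Y] (A : Matrix X Y F) (f : X' → X)
    (g : Y' → Y) : (A.submatrix f g).rank ≤ A.rank := by
  have h : A.submatrix f g = (1 : Matrix X X F).submatrix f id * A *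
      (1 : Matrix Y Y F).submatrix id g := by
    ext i j
    simp [Matrix.mul_apply, Matrix.one_apply]
  rw [h]
  exact (Matrix.rank_mul_le_left _ _).trans (Matrix.rank_mul_le_right _ _)

theorem lower' {G : Type*} [AddCommGroup G] {t : ℕ} (hG : FinSubgroupsGen G t) {n : ℕ}
    (a b : Fin n → G) (ha : Function.Injective a) (hb : Function.Injective b) (r s : ℝ)
    (hrs : ∀ I J : Finset (Fin n), (n : ℝ) - 4 ^ t * r ≤ I.card → (n : ℝ) - 4 ^ t * r ≤ J.card →
      s < numSums a b I J)
    {F : Type*} [Field F] [Algebra ℚ F] (f : G → F)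
    (hf : AlgebraicIndependent ℚ (fun x : {g : G | ∃ i j, a i + b j = g} => f x)) :
    Rigid (sumMatrix f a b) r s := by
  classical
  intro R S hRS hR
  obtain ⟨a', b', κ, κ', ha', hb', h2, h3, h4⟩ := exists_model' hG a b ha hb
  obtain ⟨f', hf'⟩ : ∃ f' : ℤ → F, ∀ i j, f' (a' i + b' j) = f (a i + b j) := by
    have h1 : Function.FactorsThrough (fun x : Fin n × Fin n => f (a x.1 + b x.2))
        (fun x : Fin n × Fin n => a' x.1 + b' x.2) := by
      intro x y hxy
      simp only at hxy ⊢
      rw [h2 _ _ _ _ hxy]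
    obtain ⟨e, he⟩ := (Function.factorsThrough_iff _).mp h1
    exact ⟨e, fun i j => (congrFun he (i, j)).symm⟩
  let T := (Fin t → Bool) × (Fin t → Bool)
  -- the blocks
  have hblock : ∀ e : T, ∃ I J : Finset (Fin n),
      (univ.filter (fun i => κ i = e.1)).card ≤ I.card + R.rank ∧
      (univ.filter (fun j => κ' j = e.2)).card ≤ J.card + R.rank ∧
      (∀ i ∈ I, κ i = e.1) ∧ (∀ j ∈ J, κ' j = e.2) ∧
      numSums a b I J ≤ (univ.filter (fun p : Fin n × Fin n =>
        S p.1 p.2 ≠ 0 ∧ (κ p.1, κ' p.2) = e)).card := by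
    intro e
    let X := {i : Fin n // κ i = e.1}
    let Y := {j : Fin n // κ' j = e.2}
    have hch : ∀ x : {y : ℤ | ∃ (i : X) (j : Y), a' i + b' j = y},
        ∃ g : {g : G | ∃ i j, a i + b j = g}, ∀ (i : X) (j : Y), a' i + b' j = x →
          a i + b j = g := by
      rintro ⟨x, i, j, hx⟩
      refine ⟨⟨a i + b j, i, j, rfl⟩, ?_⟩
      intro k l hkl
      exact h2 _ _ _ _ (hkl.trans hx.symm)
    choose φ hφ using hch
    have hinj : Function.Injective φ := by
      rintro ⟨x, i, j, hx⟩ ⟨y, k, l, hy⟩ hxy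
      apply Subtype.ext
      have e1 := hφ ⟨x, i, j, hx⟩ i j hx
      have e2 := hφ ⟨y, k, l, hy⟩ k l hy
      have e3 : a i + b j = a k + b l := by rw [e1, e2, hxy]
      have e4 := h4 _ _ _ _ (i.2.trans k.2.symm) (j.2.trans l.2.symm) e3
      show x = y
      rw [← hx, ← hy, e4]
    have hind : AlgebraicIndependent ℚ
        (fun x : {y : ℤ | ∃ (i : X) (j : Y), a' i + b' j = y} => f' x) := by
      have e1 := hf.comp φ hinj
      have e2 : (fun x : {y : ℤ | ∃ (i : X) (j : Y), a' i + b' j = y} => f' x) =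
          (fun x : {g : G | ∃ i j, a i + b j = g} => f x) ∘ φ := by
        funext x
        obtain ⟨x, i, j, hx⟩ := x
        have e3 := hφ ⟨x, i, j, hx⟩ i j hx
        show f' x = f (φ ⟨x, i, j, hx⟩)
        rw [← e3, ← hf', hx]
      rw [e2]
      exact e1
    obtain ⟨I, J, hI, hJ, hIJ⟩ := lower_rect (fun i : X => a' i) (fun j : Y => b' j)
      (fun i j h => Subtype.ext (ha' h)) (fun i j h => Subtype.ext (hb' h)) f' hind
      (R.submatrix Subtype.val Subtype.val) (S.submatrix Subtype.val Subtype.val) (by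
        intro i j
        rw [hf']
        have := congrFun (congrFun hRS i) j
        simpa [sumMatrix] using this)
    have hRr := rank_submatrix_le' R (Subtype.val : X → Fin n) (Subtype.val : Y → Fin n)
    refine ⟨I.map (Function.Embedding.subtype _), J.map (Function.Embedding.subtype _),
      ?_, ?_, ?_, ?_, ?_⟩
    · rw [card_map]
      have : Fintype.card X = (univ.filter (fun i => κ i = e.1)).card := by
        rw [Fintype.card_subtype]
      omega
    · rw [card_map]
      have : Fintype.card Y = (univ.filter (fun j => κ' j = e.2)).card := by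
        rw [Fintype.card_subtype]
      omega
    · intro i hi
      obtain ⟨x, _, rfl⟩ := mem_map.mp hi
      exact x.2
    · intro j hj
      obtain ⟨x, _, rfl⟩ := mem_map.mp hj
      exact x.2
    · refine (numSums_le a b a' b' _ _ (fun i _ j _ k _ l _ h => h2 i j k l h)).trans ?_
      have e1 : numSums a' b' (I.map (Function.Embedding.subtype _))
          (J.map (Function.Embedding.subtype _)) ≤
          ((I ×ˢ J).image (fun x => a' x.1 + b' x.2)).card := by
        unfold numSums
        rw [← Set.ncard_coe_finset]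
        refine Set.ncard_le_ncard ?_ (Finset.finite_toSet _)
        rintro g ⟨i, hi, j, hj, rfl⟩
        obtain ⟨x, hx, rfl⟩ := mem_map.mp hi
        obtain ⟨y, hy, rfl⟩ := mem_map.mp hj
        rw [mem_coe]
        exact mem_image.mpr ⟨(x, y), mem_product.mpr ⟨hx, hy⟩, rfl⟩
      refine e1.trans (hIJ.trans ?_)
      rw [← Set.ncard_coe_finset]
      refine Set.ncard_le_ncard_of_injOn (fun p : X × Y => ((p.1 : Fin n), (p.2 : Fin n))) ?_ ?_
        (Finset.finite_toSet _)
      · intro p hp
        simp only [coe_filter, mem_univ, true_and, Set.mem_ofPred_eq]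
        exact ⟨hp, Prod.ext p.1.2 p.2.2⟩
      · intro p _ q _ hpq
        obtain ⟨q1, q2⟩ := Prod.ext_iff.mp hpq
        exact Prod.ext (Subtype.ext q1) (Subtype.ext q2)
  choose BI BJ hb1 hb2 hb3 hb4 hb5 using hblock
  set I : Finset (Fin n) := univ.filter (fun i => ∀ e', i ∈ BI (κ i, e')) with hI
  set J : Finset (Fin n) := univ.filter (fun j => ∀ e, j ∈ BJ (e, κ' j)) with hJ
  have hTc : (univ : Finset T).card = 4 ^ t := by
    rw [card_univ, Fintype.card_prod, Fintype.card_fun, Fintype.card_bool, Fintype.card_fin,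
      ← mul_pow]
    norm_num
  have hIc : Iᶜ.card ≤ 4 ^ t * R.rank := by
    have hsub : Iᶜ ⊆ univ.biUnion (fun e : T => (univ.filter (fun i => κ i = e.1)) \ BI e) := by
      intro i hi
      rw [hI, mem_compl, mem_filter, not_and] at hi
      have h5 := hi (mem_univ _)
      push Not at h5
      obtain ⟨e', he'⟩ := h5
      exact mem_biUnion.mpr ⟨(κ i, e'), mem_univ _, mem_sdiff.mpr ⟨by simp, he'⟩⟩
    refine (card_le_card hsub).trans (card_biUnion_le.trans ?_)
    refine (sum_le_card_nsmul _ _ R.rank ?_).trans (le_of_eq ?_)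
    · intro e _
      have h5 : BI e ⊆ univ.filter (fun i => κ i = e.1) := fun i hi => by simpa using hb3 e i hi
      rw [card_sdiff_of_subset h5]
      have := hb1 e
      omega
    · rw [hTc, smul_eq_mul]
  have hJc : Jᶜ.card ≤ 4 ^ t * R.rank := by
    have hsub : Jᶜ ⊆ univ.biUnion (fun e : T => (univ.filter (fun i => κ' i = e.2)) \ BJ e) := by
      intro i hi
      rw [hJ, mem_compl, mem_filter, not_and] at hi
      have h5 := hi (mem_univ _)
      push Not at h5
      obtain ⟨e', he'⟩ := h5
      exact mem_biUnion.mpr ⟨(e', κ' i), mem_univ _, mem_sdiff.mpr ⟨by simp, he'⟩⟩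
    refine (card_le_card hsub).trans (card_biUnion_le.trans ?_)
    refine (sum_le_card_nsmul _ _ R.rank ?_).trans (le_of_eq ?_)
    · intro e _
      have h5 : BJ e ⊆ univ.filter (fun i => κ' i = e.2) := fun i hi => by simpa using hb4 e i hi
      rw [card_sdiff_of_subset h5]
      have := hb2 e
      omega
    · rw [hTc, smul_eq_mul]
  have hcard : ∀ K : Finset (Fin n), Kᶜ.card ≤ 4 ^ t * R.rank →
      (n : ℝ) - 4 ^ t * r ≤ K.card := by
    intro K hK
    have h5 : n ≤ K.card + 4 ^ t * R.rank := by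
      have := card_compl K
      rw [Fintype.card_fin] at this
      omega
    have h6 : (n : ℝ) ≤ K.card + 4 ^ t * R.rank := by exact_mod_cast h5
    have h7 : (4 : ℝ) ^ t * R.rank ≤ 4 ^ t * r := by gcongr
    linarith
  refine (hrs I J (hcard I hIc) (hcard J hJc)).trans_le ?_
  have hsum : numSums a b I J ≤ ∑ e : T, numSums a b (BI e) (BJ e) := by
    have h5 : ({g : G | ∃ i ∈ I, ∃ j ∈ J, a i + b j = g} : Set G) ⊆
        (univ.biUnion (fun e : T => ((BI e) ×ˢ (BJ e)).image (fun x => a x.1 + b x.2)) :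
          Finset G) := by
      rintro g ⟨i, hi, j, hj, rfl⟩
      rw [mem_coe, mem_biUnion]
      refine ⟨(κ i, κ' j), mem_univ _, mem_image.mpr ⟨(i, j), mem_product.mpr ⟨?_, ?_⟩, rfl⟩⟩
      · exact (mem_filter.mp hi).2 (κ' j)
      · exact (mem_filter.mp hj).2 (κ i)
    have h6 := Set.ncard_le_ncard h5 (Finset.finite_toSet _)
    rw [Set.ncard_coe_finset] at h6
    refine h6.trans (card_biUnion_le.trans (sum_le_sum fun e _ => le_of_eq ?_))
    unfold numSums
    rw [← Set.ncard_coe_finset]
    congr 1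
    ext g
    simp only [coe_image, coe_product, Set.mem_image, Set.mem_prod, mem_coe, Prod.exists,
      Set.mem_ofPred_eq]
    constructor
    · rintro ⟨i, j, ⟨hi, hj⟩, rfl⟩
      exact ⟨i, hi, j, hj, rfl⟩
    · rintro ⟨i, hi, j, hj, rfl⟩
      exact ⟨i, j, ⟨hi, hj⟩, rfl⟩
  have hfib : ∑ e : T, (univ.filter (fun p : Fin n × Fin n =>
      S p.1 p.2 ≠ 0 ∧ (κ p.1, κ' p.2) = e)).card =
      ({p : Fin n × Fin n | S p.1 p.2 ≠ 0} : Set (Fin n × Fin n)).ncard := by
    have h7 : ({p : Fin n × Fin n | S p.1 p.2 ≠ 0} : Set (Fin n × Fin n)).ncard =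
        (univ.filter (fun p : Fin n × Fin n => S p.1 p.2 ≠ 0)).card := by
      rw [← Set.ncard_coe_finset]
      congr 1
      ext x
      simp
    rw [h7, card_eq_sum_card_fiberwise (f := fun p : Fin n × Fin n => (κ p.1, κ' p.2))
      (t := (univ : Finset T)) (fun _ _ => mem_univ _)]
    refine sum_congr rfl fun e _ => ?_
    rw [filter_filter]
  have hall : numSums a b I J ≤
      ({p : Fin n × Fin n | S p.1 p.2 ≠ 0} : Set (Fin n × Fin n)).ncard := by
    rw [← hfib]
    exact hsum.trans (sum_le_sum fun e _ => hb5 e)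
  exact_mod_cast hall

end MP0775d3.Sum
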