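import Pool.Agent.Lib.MP_0775d3_lc.Kron.Defs

/-! Matrices `(f (a i + b j))`, numbers of sums, rigidity. -/

namespace MP0775d3.Sum

/-- The matrix with entries `f (a i + b j)`. -/
def sumMatrix {G F : Type*} [Add G] {n : ℕ} (f : G → F) (a b : Fin n → G) :
    Matrix (Fin n) (Fin n) F :=
  Matrix.of fun i j => f (a i + b j)

/-- The number of distinct sums `a i + b j` with `i ∈ I` and `j ∈ J`. -/
noncomputable def numSums {G : Type*} [Add G] {n : ℕ} (a b : Fin n → G) (I J : Finset (Fin n)) :
    ℕ :=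
  {g : G | ∃ i ∈ I, ∃ j ∈ J, a i + b j = g}.ncard

/-- Every decomposition of `M` into a matrix of rank at most `r` and a matrix `S` has more than
`s` nonzero entries in `S`. -/
def Rigid {F : Type*} [Field F] {n : ℕ} (M : Matrix (Fin n) (Fin n) F) (r s : ℝ) : Prop :=
  ∀ R S : Matrix (Fin n) (Fin n) F, M = R + S → (R.rank : ℝ) ≤ r →
    s < (({p : Fin n × Fin n | S p.1 p.2 ≠ 0} : Set (Fin n × Fin n)).ncard : ℝ)

/-- Every finite subgroup of `G` is generated by at most `t` elements. -/
def FinSubgroupsGen (G : Type*) [AddCommGroup G] (t : ℕ) : Prop :=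
  ∀ H : AddSubgroup G, Finite H → ∃ v : Fin t → G, AddSubgroup.closure (Set.range v) = H

end MP0775d3.Sum
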