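import Pool.Agent.Lib.MP_0775d3_lc.Sum.Lift

/-! Extension of injective maps, choice of the prime and of the multiplier. -/

namespace MP0775d3.Sum

open Finset

/-- A map from `Fin n` to a type with at least `n` elements which is injective on `s` can be
changed outside `s` to an injective map. -/
theorem exists_extend {n : ℕ} {Y : Type*} [Fintype Y] [DecidableEq Y] (hn : n ≤ Fintype.card Y)
    (s : Finset (Fin n)) (g : Fin n → Y) (hg : Set.InjOn g s) :
    ∃ h : Fin n → Y, Function.Injective h ∧ ∀ i ∈ s, h i = g i := by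
  have h1 : (s.image g).card ≤ n := by
    refine card_image_le.trans ?_
    simpa using card_le_univ s
  obtain ⟨t, ht1, _, ht2⟩ := exists_subsuperset_card_eq (subset_univ (s.image g)) h1
    (by rwa [card_univ])
  obtain ⟨e, he⟩ := exists_equiv_extend_of_card_eq (α := Fin n) (t := t) (by simp [ht2]) ht1 hg
  exact ⟨fun i => (e i : Y), fun i j hij => e.injective (Subtype.ext hij), he⟩

/-- A prime larger than all elements of a finite set. -/
theorem exists_prime (D : Finset ℤ) : ∃ p : ℕ, p.Prime ∧ ∀ x ∈ D, x ≠ 0 → ¬ (p : ℤ) ∣ x := by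
  obtain ⟨p, hp1, hp2⟩ := Nat.exists_infinite_primes (∑ x ∈ D, x.natAbs + 1)
  refine ⟨p, hp2, ?_⟩
  intro x hx hx0 hd
  apply hx0
  refine Int.eq_zero_of_abs_lt_dvd hd ?_
  have h1 : x.natAbs ≤ ∑ x ∈ D, x.natAbs := single_le_sum (f := Int.natAbs) (fun _ _ => Nat.zero_le _) hx
  rw [Int.abs_eq_natAbs]
  exact_mod_cast (by omega : x.natAbs < p)

open Classical in
/-- The sum over the multipliers of the number of colliding elements. -/
theorem sum_bad (p N : ℕ) (hp : p.Prime) (hN : 0 < N) {ι : Type*} (T S : Finset ι) (v : ι → ℤ)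
    (h : ∀ t ∈ T, ∀ s ∈ S, s ≠ t → ¬ (p : ℤ) ∣ v s - v t) :
    ∑ q ∈ Ico 1 p, ((T.filter (fun t => ∃ s ∈ S, s ≠ t ∧ Coll p N q (v s - v t))).card : ℝ) ≤
      (T.card * S.card * 2 / N) * (Ico 1 p).card := by
  have hNr : (0 : ℝ) < N := by exact_mod_cast hN
  have hpc : ((Ico 1 p).card : ℝ) = p - 1 := by
    rw [Nat.card_Ico, Nat.cast_sub hp.one_lt.le, Nat.cast_one]
  have h1 : ∀ q ∈ Ico 1 p,
      ((T.filter (fun t => ∃ s ∈ S, s ≠ t ∧ Coll p N q (v s - v t))).card : ℝ) ≤
      ∑ t ∈ T, ∑ s ∈ S, (if s ≠ t ∧ Coll p N q (v s - v t) then (1 : ℝ) else 0) := by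
    intro q _
    rw [card_filter]
    push_cast
    refine sum_le_sum fun t _ => ?_
    split_ifs with hc
    · obtain ⟨s, hs, hst⟩ := hc
      refine le_trans ?_ (single_le_sum (fun s _ => ?_) hs)
      · rw [if_pos hst]
      · split_ifs <;> norm_num
    · refine sum_nonneg fun s _ => ?_
      split_ifs <;> norm_num
  calc ∑ q ∈ Ico 1 p, ((T.filter (fun t => ∃ s ∈ S, s ≠ t ∧ Coll p N q (v s - v t))).card : ℝ)
      ≤ ∑ q ∈ Ico 1 p, ∑ t ∈ T, ∑ s ∈ S,
        (if s ≠ t ∧ Coll p N q (v s - v t) then (1 : ℝ) else 0) := sum_le_sum h1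
    _ = ∑ t ∈ T, ∑ s ∈ S, ∑ q ∈ Ico 1 p,
        (if s ≠ t ∧ Coll p N q (v s - v t) then (1 : ℝ) else 0) := by
        rw [sum_comm]
        refine sum_congr rfl fun t _ => ?_
        rw [sum_comm]
    _ ≤ ∑ t ∈ T, ∑ s ∈ S, (2 * ((p : ℝ) - 1) / N) := by
        refine sum_le_sum fun t ht => sum_le_sum fun s hs => ?_
        by_cases hst : s = t
        · have : ∀ q ∈ Ico 1 p, (if s ≠ t ∧ Coll p N q (v s - v t) then (1 : ℝ) else 0) = 0 := by
            intro q _
            rw [if_neg (fun hh => hh.1 hst)]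
          rw [sum_congr rfl this, sum_const_zero]
          have : (1 : ℝ) ≤ p := by exact_mod_cast hp.one_lt.le
          have : (0 : ℝ) ≤ (p : ℝ) - 1 := by linarith
          positivity
        · have h2 := hash_count p N hp hN (v s - v t) (h t ht s hs hst)
          rw [card_filter] at h2
          push_cast at h2
          refine le_trans (le_of_eq ?_) h2
          refine sum_congr rfl fun q _ => ?_
          simp [hst]
    _ = (T.card * S.card * 2 / N) * (Ico 1 p).card := by
        rw [sum_const, sum_const, nsmul_eq_mul, nsmul_eq_mul, hpc]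
        ring

end MP0775d3.Sum
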