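import Mathlib

/-! Hashing integers: `x ↦ (q x mod p) mod N`. -/

namespace MP0775d3.Sum

open Finset

/-- The multiplier `q` makes `x` collide. -/
def Coll (p N : ℕ) (q x : ℤ) : Prop := ∃ k : ℤ, k ≠ 0 ∧ |k| * N < p ∧ (p : ℤ) ∣ q * x - k * N

open Classical in
/-- Few multipliers make a given `x` collide. -/
theorem hash_count (p N : ℕ) (hp : p.Prime) (hN : 0 < N) (x : ℤ) (hx : ¬ (p : ℤ) ∣ x) :
    (((Ico 1 p).filter (fun q : ℕ => Coll p N q x)).card : ℝ) ≤ 2 * (p - 1) / N := by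
  set m : ℕ := (p - 1) / N with hm
  set K : Finset ℤ := (Icc (-(m : ℤ)) m).erase 0 with hK
  have hKc : K.card = 2 * m := by
    rw [hK, card_erase_of_mem (by simp), Int.card_Icc]
    omega
  have h1 : ((Ico 1 p).filter (fun q : ℕ => Coll p N q x)).card ≤ K.card := by
    have hex : ∀ q ∈ (Ico 1 p).filter (fun q : ℕ => Coll p N q x), ∃ k : ℤ, k ∈ K ∧
        (p : ℤ) ∣ q * x - k * N := by
      intro q hq
      obtain ⟨k, hk0, hk1, hk2⟩ := (mem_filter.mp hq).2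
      refine ⟨k, ?_, hk2⟩
      rw [hK, mem_erase, mem_Icc, ← abs_le]
      refine ⟨hk0, ?_⟩
      have h3 : |k| * N ≤ (p - 1 : ℕ) := by
        have := hp.one_lt
        push_cast [Nat.cast_sub this.le]
        omega
      have h4 : |k| ≤ ((p - 1 : ℕ) : ℤ) / (N : ℤ) := Int.le_ediv_of_mul_le (by exact_mod_cast hN) h3
      rw [hm]
      push_cast
      exact h4
    choose! g hg1 hg2 using hex
    refine card_le_card_of_injOn g (fun q hq => hg1 q hq) ?_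
    intro q hq q' hq' hqq
    have hd : (p : ℤ) ∣ ((q : ℤ) - q') * x := by
      have h5 := dvd_sub (hg2 q hq) (hg2 q' hq')
      rw [hqq] at h5
      have : ((q : ℤ) - q') * x = q * x - g q' * N - (q' * x - g q' * N) := by ring
      rw [this]
      exact h5
    have hpi : Prime (p : ℤ) := Nat.prime_iff_prime_int.mp hp
    have h6 : (p : ℤ) ∣ (q : ℤ) - q' := (hpi.dvd_or_dvd hd).resolve_right hx
    have hq1 := mem_Ico.mp (mem_filter.mp (mem_coe.mp hq)).1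
    have hq2 := mem_Ico.mp (mem_filter.mp (mem_coe.mp hq')).1
    have h7 : ((q : ℤ) - q') = 0 := by
      refine Int.eq_zero_of_abs_lt_dvd h6 ?_
      rw [abs_lt]
      omega
    omega
  have hNr : (0 : ℝ) < N := by exact_mod_cast hN
  have h2 : ((m : ℕ) : ℝ) ≤ (p - 1) / N := by
    rw [le_div_iff₀ hNr]
    have h8 : m * N ≤ p - 1 := Nat.div_mul_le_self _ _
    have h9 : ((m * N : ℕ) : ℝ) ≤ ((p - 1 : ℕ) : ℝ) := by exact_mod_cast h8
    rw [Nat.cast_sub hp.one_lt.le] at h9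
    push_cast at h9
    exact h9
  calc (((Ico 1 p).filter (fun q : ℕ => Coll p N q x)).card : ℝ) ≤ (K.card : ℝ) := by
        exact_mod_cast h1
    _ = 2 * (m : ℝ) := by rw [hKc]; push_cast; rfl
    _ ≤ 2 * ((p - 1) / N) := by linarith
    _ = 2 * (p - 1) / N := by ring

/-- Markov for one nonnegative weight. -/
theorem markov {ι : Type*} (Q : Finset ι) (hQ : Q.Nonempty) (w : ι → ℝ) (hw : ∀ q ∈ Q, 0 ≤ w q)
    (A : ℝ) (hA : ∑ q ∈ Q, w q ≤ A * Q.card) [DecidablePred fun q => 3 * A < w q] :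
    3 * ((Q.filter (fun q => 3 * A < w q)).card : ℝ) < Q.card := by
  have hQc : (0 : ℝ) < Q.card := by exact_mod_cast hQ.card_pos
  have hA0 : 0 ≤ A := by
    by_contra h
    push Not at h
    have h1 : (0 : ℝ) ≤ ∑ q ∈ Q, w q := sum_nonneg hw
    nlinarith
  rcases (Q.filter (fun q => 3 * A < w q)).eq_empty_or_nonempty with h | h
  · rw [h]
    simpa using hQc
  · have h1 : ∑ q ∈ Q.filter (fun q => 3 * A < w q), (3 * A) <
        ∑ q ∈ Q.filter (fun q => 3 * A < w q), w q :=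
      sum_lt_sum_of_nonempty h (fun q hq => (mem_filter.mp hq).2)
    have h2 : ∑ q ∈ Q.filter (fun q => 3 * A < w q), w q ≤ ∑ q ∈ Q, w q :=
      sum_le_sum_of_subset_of_nonneg (filter_subset _ _) (fun q hq _ => hw q hq)
    rw [sum_const, nsmul_eq_mul] at h1
    have h3 : A * (3 * ((Q.filter (fun q => 3 * A < w q)).card : ℝ)) < A * Q.card := by
      calc A * (3 * ((Q.filter (fun q => 3 * A < w q)).card : ℝ))
          = ((Q.filter (fun q => 3 * A < w q)).card : ℝ) * (3 * A) := by ring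
        _ < ∑ q ∈ Q, w q := h1.trans_le h2
        _ ≤ A * Q.card := hA
    exact lt_of_mul_lt_mul_left h3 hA0

/-- A common good point for three weights. -/
theorem exists_good {ι : Type*} (Q : Finset ι) (hQ : Q.Nonempty) (w₁ w₂ w₃ : ι → ℝ)
    (h₁ : ∀ q ∈ Q, 0 ≤ w₁ q) (h₂ : ∀ q ∈ Q, 0 ≤ w₂ q) (h₃ : ∀ q ∈ Q, 0 ≤ w₃ q)
    (A₁ A₂ A₃ : ℝ) (g₁ : ∑ q ∈ Q, w₁ q ≤ A₁ * Q.card) (g₂ : ∑ q ∈ Q, w₂ q ≤ A₂ * Q.card)
    (g₃ : ∑ q ∈ Q, w₃ q ≤ A₃ * Q.card) :
    ∃ q ∈ Q, w₁ q ≤ 3 * A₁ ∧ w₂ q ≤ 3 * A₂ ∧ w₃ q ≤ 3 * A₃ := by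
  classical
  by_contra hcon
  push Not at hcon
  have m1 := markov Q hQ w₁ h₁ A₁ g₁
  have m2 := markov Q hQ w₂ h₂ A₂ g₂
  have m3 := markov Q hQ w₃ h₃ A₃ g₃
  have hsub : Q ⊆ Q.filter (fun q => 3 * A₁ < w₁ q) ∪ Q.filter (fun q => 3 * A₂ < w₂ q) ∪
      Q.filter (fun q => 3 * A₃ < w₃ q) := by
    intro q hq
    simp only [mem_union, mem_filter]
    by_cases c1 : w₁ q ≤ 3 * A₁
    · by_cases c2 : w₂ q ≤ 3 * A₂
      · exact Or.inr ⟨hq, hcon q hq c1 c2⟩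
      · exact Or.inl (Or.inr ⟨hq, not_le.mp c2⟩)
    · exact Or.inl (Or.inl ⟨hq, not_le.mp c1⟩)
  have h5 := (card_le_card hsub).trans ((card_union_le _ _).trans
    (add_le_add_left (card_union_le _ _) _))
  have h6 : (Q.card : ℝ) ≤ (Q.filter (fun q => 3 * A₁ < w₁ q)).card +
      (Q.filter (fun q => 3 * A₂ < w₂ q)).card + (Q.filter (fun q => 3 * A₃ < w₃ q)).card := by
    exact_mod_cast h5
  linarith

end MP0775d3.Sum
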