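import Pool.Agent.Lib.MP_0775d3_lc.Sum.Defs

/-! From generic values to integer values, by an ultraproduct. -/

set_option linter.unusedSectionVars false

namespace MP0775d3.Sum

open Matrix Filter

/-- Rank factorisation with a prescribed inner size. -/
theorem exists_factor {K : Type*} [Field K] {n : ℕ} (R : Matrix (Fin n) (Fin n) K) (r : ℕ)
    (h : R.rank ≤ r) : ∃ (X : Matrix (Fin n) (Fin r) K) (Y : Matrix (Fin r) (Fin n) K),
      R = X * Y := by
  classical
  let W := LinearMap.range R.mulVecLin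
  have h' : Module.finrank K W ≤ r := h
  let b := Module.finBasis K W
  let X : Matrix (Fin n) (Fin (Module.finrank K W)) K := fun i k => (b k : Fin n → K) i
  let w : Fin n → W := fun j => ⟨R.mulVecLin (Pi.single j 1), ⟨_, rfl⟩⟩
  let Y : Matrix (Fin (Module.finrank K W)) (Fin n) K := fun k j => b.repr (w j) k
  have hXY : R = X * Y := by
    ext i j
    have h1 : R i j = (w j : Fin n → K) i := by
      show R i j = R.mulVec (Pi.single j 1) i
      rw [Matrix.mulVec_single_one]
      rfl
    have h2 : (w j : Fin n → K) i = ((∑ k, b.repr (w j) k • b k : W) : Fin n → K) i := by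
      rw [b.sum_repr]
    rw [h1, h2, Submodule.coe_sum, Finset.sum_apply, Matrix.mul_apply]
    refine Finset.sum_congr rfl fun k _ => ?_
    show b.repr (w j) k * (b k : Fin n → K) i = (b k : Fin n → K) i * b.repr (w j) k
    ring
  let E : Matrix (Fin (Module.finrank K W)) (Fin r) K :=
    (1 : Matrix (Fin r) (Fin r) K).submatrix (Fin.castLE h') id
  have hE : E * Eᵀ = 1 := by
    ext i j
    rw [Matrix.mul_apply]
    simp only [E, Matrix.submatrix_apply, Matrix.transpose_apply, id, Matrix.one_apply,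
      mul_ite, mul_one, mul_zero]
    rw [Finset.sum_eq_single (Fin.castLE h' j)]
    · rw [if_pos rfl]
      by_cases hij : i = j
      · rw [hij, if_pos rfl, if_pos rfl]
      · rw [if_neg hij, if_neg (fun hh => hij (Fin.castLE_injective h' hh))]
    · intro k _ hk
      rw [if_neg (fun hh => hk hh.symm)]
    · intro hh
      exact absurd (Finset.mem_univ _) hh
  refine ⟨X * E, Eᵀ * Y, ?_⟩
  rw [Matrix.mul_assoc, ← Matrix.mul_assoc E, hE, Matrix.one_mul, ← hXY]

/-- A nonzero polynomial with rational coefficients does not vanish at some integer point. -/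
theorem exists_int_point {C : Type} (P : MvPolynomial C ℚ) (hP : P ≠ 0) :
    ∃ z : C → ℤ, MvPolynomial.eval (fun c => (z c : ℚ)) P ≠ 0 := by
  by_contra hcon
  push Not at hcon
  apply hP
  refine MvPolynomial.funext_set (fun _ => Set.range (Int.cast : ℤ → ℚ))
    (fun _ => Set.infinite_range_of_injective Int.cast_injective) ?_
  intro x hx
  have h1 : ∀ c, ∃ z : ℤ, (z : ℚ) = x c := fun c => hx c (Set.mem_univ _)
  choose z hz using h1
  have h2 := hcon z
  have h3 : (fun c => (z c : ℚ)) = x := funext hz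
  rw [h3] at h2
  rw [h2, map_zero]

/-- If generic values give rigid matrices over every field of characteristic zero, then some
integer values give rigid matrices over the complex numbers. -/
theorem exists_int {G : Type} [Add G] {n : ℕ} (a b : Fin n → G) (r s : ℝ)
    (h : ∀ (K : Type) [Field K] [CharZero K] (f : G → K),
      AlgebraicIndependent ℚ (fun x : {g : G | ∃ i j, a i + b j = g} => f x) →
      Rigid (sumMatrix f a b) r s) :
    ∃ f : G → ℤ, Rigid (sumMatrix (fun g => (f g : ℂ)) a b) r s := by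
  classical
  by_contra hcon
  push Not at hcon
  let C := {g : G | ∃ i j, a i + b j = g}
  let ι := Finset {P : MvPolynomial C ℚ // P ≠ 0}
  have hz : ∀ s : ι, ∃ z : C → ℤ, ∀ P ∈ s,
      MvPolynomial.eval (fun c => (z c : ℚ)) P.1 ≠ 0 := by
    intro s
    have hprod : (∏ P ∈ s, P.1) ≠ 0 := Finset.prod_ne_zero_iff.mpr fun P _ => P.2
    obtain ⟨z, hz⟩ := exists_int_point _ hprod
    rw [map_prod, Finset.prod_ne_zero_iff] at hz
    exact ⟨z, fun P hP => hz P hP⟩
  choose z hz using hz
  let U : Ultrafilter ι := Ultrafilter.of atTop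
  have hU : (U : Filter ι) ≤ atTop := Ultrafilter.of_le _
  let fs : ι → G → ℤ := fun s g => if hg : g ∈ C then z s ⟨g, hg⟩ else 0
  have hRS : ∀ s' : ι, ∃ R S : Matrix (Fin n) (Fin n) ℂ,
      sumMatrix (fun g => (fs s' g : ℂ)) a b = R + S ∧ (R.rank : ℝ) ≤ r ∧
      (({p : Fin n × Fin n | S p.1 p.2 ≠ 0} : Set (Fin n × Fin n)).ncard : ℝ) ≤ s := by
    intro s'
    have h1 := hcon (fs s')
    unfold Rigid at h1
    push Not at h1
    exact h1
  choose R S hM hR hS using hRS
  have hfac : ∀ s' : ι, ∃ (X : Matrix (Fin n) (Fin ⌊r⌋₊) ℂ) (Y : Matrix (Fin ⌊r⌋₊) (Fin n) ℂ),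
      R s' = X * Y := fun s' => exists_factor (R s') _ (Nat.le_floor (hR s'))
  choose X Y hXY using hfac
  -- the ultraproduct
  let K := Germ (U : Filter ι) ℂ
  let Θ : (ι → ℂ) →+* K := Germ.coeRingHom (U : Filter ι)
  have hΘ : ∀ g : ι → ℂ, Θ g = 0 ↔ ∀ᶠ s' in (U : Filter ι), g s' = 0 := by
    intro g
    exact Germ.coe_eq
  have : CharZero K := by
    refine ⟨fun m m' hmm => ?_⟩
    have h1 : Θ (fun _ => (m : ℂ)) = Θ (fun _ => (m' : ℂ)) := by
      have e1 : Θ (fun _ => (m : ℂ)) = ((m : ℕ) : K) := map_natCast Θ m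
      have e2 : Θ (fun _ => (m' : ℂ)) = ((m' : ℕ) : K) := map_natCast Θ m'
      rw [e1, e2]
      exact hmm
    have h2 : ∀ᶠ s' in (U : Filter ι), (m : ℂ) = (m' : ℂ) := Germ.coe_eq.mp h1
    obtain ⟨_, h3⟩ := h2.exists
    exact_mod_cast h3
  let F : G → K := fun g => Θ (fun s' => (fs s' g : ℂ))
  have hind : AlgebraicIndependent ℚ (fun x : C => F x) := by
    rw [algebraicIndependent_iff]
    intro P hP
    by_contra hP0
    let φ : MvPolynomial C ℚ →+* K := (MvPolynomial.aeval (fun x : C => F x)).toRingHom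
    let ψ : MvPolynomial C ℚ →+* (ι → ℂ) :=
      (MvPolynomial.aeval (fun (x : C) (s' : ι) => (z s' x : ℂ))).toRingHom
    have h1 : φ = Θ.comp ψ := by
      refine MvPolynomial.ringHom_ext (fun q => ?_) (fun x => ?_)
      · have e1 : φ (MvPolynomial.C q) = algebraMap ℚ K q :=
          MvPolynomial.aeval_C _ _
        have e2 : ψ (MvPolynomial.C q) = algebraMap ℚ (ι → ℂ) q := MvPolynomial.aeval_C _ _
        rw [e1, RingHom.comp_apply, e2]
        exact (congrFun (congrArg DFunLike.coe (Subsingleton.elim (algebraMap ℚ K)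
          (Θ.comp (algebraMap ℚ (ι → ℂ))))) q)
      · have e1 : φ (MvPolynomial.X x) = F x := MvPolynomial.aeval_X _ _
        have e2 : ψ (MvPolynomial.X x) = fun s' => (z s' x : ℂ) := MvPolynomial.aeval_X _ _
        rw [e1, RingHom.comp_apply, e2]
        show Θ (fun s' => (fs s' x : ℂ)) = _
        congr 1
        funext s'
        simp only [fs]
        rw [dif_pos x.2]
    have h2 : Θ (ψ P) = 0 := by
      have : φ P = 0 := hP
      rw [h1] at this
      exact this
    have h3 := (hΘ _).mp h2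
    have h4 : ∀ᶠ s' in (U : Filter ι), (⟨P, hP0⟩ : {P : MvPolynomial C ℚ // P ≠ 0}) ∈ s' := by
      refine hU ?_
      have := eventually_ge_atTop ({⟨P, hP0⟩} : ι)
      refine this.mono fun s' hs' => ?_
      exact hs' (Finset.mem_singleton_self _)
    obtain ⟨s', h5, h6⟩ := (h3.and h4).exists
    apply hz s' _ h6
    have h7 : ψ P s' = ((MvPolynomial.eval (fun c => (z s' c : ℚ)) P : ℚ) : ℂ) := by
      have e1 : (Pi.evalRingHom (fun _ : ι => ℂ) s').comp ψ =
          (algebraMap ℚ ℂ).comp (MvPolynomial.eval (fun c => (z s' c : ℚ))) := by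
        refine MvPolynomial.ringHom_ext (fun q => ?_) (fun x => ?_)
        · have e2 : ψ (MvPolynomial.C q) = algebraMap ℚ (ι → ℂ) q := MvPolynomial.aeval_C _ _
          rw [RingHom.comp_apply, e2, RingHom.comp_apply, MvPolynomial.eval_C]
          rfl
        · have e2 : ψ (MvPolynomial.X x) = fun s' => (z s' x : ℂ) := MvPolynomial.aeval_X _ _
          rw [RingHom.comp_apply, e2, RingHom.comp_apply, MvPolynomial.eval_X]
          simp
      exact congrFun (congrArg DFunLike.coe e1) P
    rw [h7] at h5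
    exact_mod_cast h5
  -- the decomposition over the ultraproduct
  let Rs : Matrix (Fin n) (Fin n) K := Matrix.of fun i j => Θ (fun s' => R s' i j)
  let Ss : Matrix (Fin n) (Fin n) K := Matrix.of fun i j => Θ (fun s' => S s' i j)
  have hdec : sumMatrix F a b = Rs + Ss := by
    ext i j
    show Θ (fun s' => (fs s' (a i + b j) : ℂ)) = Θ (fun s' => R s' i j) + Θ (fun s' => S s' i j)
    rw [← map_add]
    congr 1
    funext s'
    exact congrFun (congrFun (hM s') i) j
  have hr0 : 0 ≤ r := le_trans (Nat.cast_nonneg _) (hR ∅)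
  have hrank : (Rs.rank : ℝ) ≤ r := by
    let X' : Matrix (Fin n) (Fin ⌊r⌋₊) K := Matrix.of fun i k => Θ (fun s' => X s' i k)
    let Y' : Matrix (Fin ⌊r⌋₊) (Fin n) K := Matrix.of fun k j => Θ (fun s' => Y s' k j)
    have h1 : Rs = X' * Y' := by
      ext i j
      rw [Matrix.mul_apply]
      simp only [Rs, X', Y', Matrix.of_apply]
      simp only [← map_mul, ← map_sum]
      congr 1
      funext s'
      have := congrFun (congrFun (hXY s') i) j
      rw [this, Matrix.mul_apply, Finset.sum_apply]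
      rfl
    have h2 : Rs.rank ≤ ⌊r⌋₊ := by
      rw [h1]
      have h3 := Matrix.rank_le_card_width X'
      rw [Fintype.card_fin] at h3
      exact (Matrix.rank_mul_le_left X' Y').trans h3
    calc (Rs.rank : ℝ) ≤ (⌊r⌋₊ : ℝ) := by exact_mod_cast h2
      _ ≤ r := Nat.floor_le hr0
  have hcard := h K F hind Rs Ss hdec hrank
  -- the support is eventually constant
  obtain ⟨Ω, hΩ⟩ := Ultrafilter.eq_pure_of_finite
    (U.map (fun s' => ({p : Fin n × Fin n | S s' p.1 p.2 ≠ 0} : Set (Fin n × Fin n))))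
  have hΩ' : ∀ᶠ s' in (U : Filter ι),
      ({p : Fin n × Fin n | S s' p.1 p.2 ≠ 0} : Set (Fin n × Fin n)) = Ω := by
    have h1 : {Ω} ∈ (U.map (fun s' => ({p : Fin n × Fin n | S s' p.1 p.2 ≠ 0} :
        Set (Fin n × Fin n)))) := by
      rw [hΩ]
      exact Ultrafilter.mem_pure.mpr rfl
    exact h1
  have hsub : ({p : Fin n × Fin n | Ss p.1 p.2 ≠ 0} : Set (Fin n × Fin n)) ⊆ Ω := by
    intro p hp
    by_contra hpΩ
    apply hp
    show Θ (fun s' => S s' p.1 p.2) = 0
    rw [hΘ]
    refine hΩ'.mono fun s' hs' => ?_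
    by_contra hne
    apply hpΩ
    rw [← hs']
    exact hne
  obtain ⟨s', hs'⟩ := hΩ'.exists
  have h5 : (({p : Fin n × Fin n | Ss p.1 p.2 ≠ 0} : Set (Fin n × Fin n)).ncard : ℝ) ≤ s := by
    refine le_trans ?_ (hS s')
    rw [hs']
    exact_mod_cast Set.ncard_le_ncard hsub (Set.toFinite _)
  exact absurd hcard (not_lt.mpr h5)

end MP0775d3.Sum
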