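import Pool.Agent.Lib.MP_0775d3_lc.Sum.Hash

/-! The lifts of residues modulo `p` to an interval of length `p`. -/

namespace MP0775d3.Sum

/-- The representative of `q * s` modulo `p` in `[c, c + p)`. -/
def sig (p : ℕ) (q c s : ℤ) : ℤ := c + (q * s - c) % p

/-- The representative of `q * s` modulo `p` in `[0, p)`. -/
def lam (p : ℕ) (q s : ℤ) : ℤ := (q * s) % p

/-- Whether the representative lies in the upper half. -/
def up (p : ℕ) (q s : ℤ) : Bool := decide ((p : ℤ) ≤ 2 * lam p q s)

/-- The offset of a block. -/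
def off (p : ℕ) (e e' : Bool) : ℤ := if e && e' then p else if e || e' then (p + 1) / 2 else 0

theorem lam_add (p : ℕ) (hp : 0 < p) (q x y : ℤ) :
    lam p q x + lam p q y = sig p q (off p (up p q x) (up p q y)) (x + y) := by
  have hpz : (0 : ℤ) < p := by exact_mod_cast hp
  have hx0 : 0 ≤ lam p q x := Int.emod_nonneg _ hpz.ne'
  have hx1 : lam p q x < p := Int.emod_lt_of_pos _ hpz
  have hy0 : 0 ≤ lam p q y := Int.emod_nonneg _ hpz.ne'
  have hy1 : lam p q y < p := Int.emod_lt_of_pos _ hpz
  set c := off p (up p q x) (up p q y) with hc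
  have hb : c ≤ lam p q x + lam p q y ∧ lam p q x + lam p q y < c + p := by
    rw [hc]
    unfold off up
    by_cases h1 : (p : ℤ) ≤ 2 * lam p q x <;> by_cases h2 : (p : ℤ) ≤ 2 * lam p q y
    · simp only [h1, h2, decide_true, Bool.and_self, if_true]
      omega
    · simp only [h1, h2, decide_true, decide_false, Bool.and_false, Bool.or_false, if_true]
      simp only [Bool.false_eq_true, if_false]
      omega
    · simp only [h1, h2, decide_true, decide_false, Bool.false_and, Bool.false_or, if_true]
      simp only [Bool.false_eq_true, if_false]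
      omega
    · simp only [h1, h2, decide_false, Bool.false_and, Bool.or_self, Bool.false_eq_true, if_false]
      omega
  unfold sig
  have h3 : (q * (x + y) - c) % p = (lam p q x + lam p q y - c) % p := by
    have ex : lam p q x ≡ q * x [ZMOD p] := Int.mod_modEq _ _
    have ey : lam p q y ≡ q * y [ZMOD p] := Int.mod_modEq _ _
    have e := ((ex.add ey).sub_right c).symm
    rw [← mul_add] at e
    exact e
  rw [h3, Int.emod_eq_of_lt (by linarith) (by linarith)]
  ring

theorem sig_coll (p N : ℕ) (hp : p.Prime) (q : ℕ) (hq : q ∈ Finset.Ico 1 p) (c s t : ℤ)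
    (hst : ¬ (p : ℤ) ∣ s - t) (h : (N : ℤ) ∣ sig p q c s - sig p q c t) :
    Coll p N q (s - t) := by
  have hpz : (0 : ℤ) < p := by exact_mod_cast hp.pos
  obtain ⟨k, hk⟩ := h
  have h1 : (p : ℤ) ∣ q * (s - t) - k * N := by
    have e1 : sig p q c s ≡ q * s [ZMOD p] := by
      have := (Int.mod_modEq (q * s - c) (p : ℤ)).add_left c
      simpa [sig] using this
    have e2 : sig p q c t ≡ q * t [ZMOD p] := by
      have := (Int.mod_modEq (q * t - c) (p : ℤ)).add_left c
      simpa [sig] using this
    have e3 := (e1.sub e2)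
    rw [hk, ← mul_sub] at e3
    have e4 := e3.dvd
    rwa [mul_comm (N : ℤ) k] at e4
  refine ⟨k, ?_, ?_, h1⟩
  · intro hk0
    rw [hk0, zero_mul, sub_zero] at h1
    have hpi : Prime (p : ℤ) := Nat.prime_iff_prime_int.mp hp
    rcases hpi.dvd_or_dvd h1 with h2 | h2
    · have hq' := Finset.mem_Ico.mp hq
      have : (q : ℤ) = 0 := by
        refine Int.eq_zero_of_abs_lt_dvd h2 ?_
        rw [abs_lt]
        omega
      omega
    · exact hst h2
  · have a0 := Int.emod_nonneg ((q : ℤ) * s - c) hpz.ne'
    have a1 := Int.emod_lt_of_pos ((q : ℤ) * s - c) hpz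
    have b0 := Int.emod_nonneg ((q : ℤ) * t - c) hpz.ne'
    have b1 := Int.emod_lt_of_pos ((q : ℤ) * t - c) hpz
    have e5 : |sig p q c s - sig p q c t| < p := by
      unfold sig
      rw [abs_lt]
      constructor <;> linarith
    rw [hk, abs_mul, Nat.abs_cast, mul_comm] at e5
    exact e5

theorem lam_coll (p N : ℕ) (hp : p.Prime) (q : ℕ) (hq : q ∈ Finset.Ico 1 p) (s t : ℤ)
    (hst : ¬ (p : ℤ) ∣ s - t) (h : (N : ℤ) ∣ lam p q s - lam p q t) :
    Coll p N q (s - t) := by
  refine sig_coll p N hp q hq 0 s t hst ?_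
  simpa [sig, lam] using h

end MP0775d3.Sum
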