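import Pool.Agent.Lib.MP_60829e_nt.PS.DDer
import Pool.Agent.Lib.MP_0775d3_lc.Sum.Defs

/-! Generic sum matrices with many sums are rigid. -/

set_option linter.unusedSectionVars false

namespace MP0775d3.Sum

open Finset Matrix

variable {F : Type*} [Field F]

section

variable {X : Type*} [Fintype X] [DecidableEq X]

open Classical in
/-- The leading indices of the vectors of `W`, the indices being ordered by `α`. -/
noncomputable def lead (α : X → ℤ) (W : Submodule F (X → F)) : Finset X :=
  univ.filter fun i => ∃ u ∈ W, u i ≠ 0 ∧ ∀ j, α j < α i → u j = 0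

theorem mem_lead {α : X → ℤ} {W : Submodule F (X → F)} {i : X} :
    i ∈ lead α W ↔ ∃ u ∈ W, u i ≠ 0 ∧ ∀ j, α j < α i → u j = 0 := by
  classical
  simp [lead]

theorem finrank_le_lead (α : X → ℤ) (W : Submodule F (X → F)) :
    Module.finrank F W ≤ (lead α W).card := by
  classical
  let φ : W →ₗ[F] ((lead α W) → F) :=
    { toFun := fun u i => (u : X → F) i
      map_add' := fun u v => rfl
      map_smul' := fun c u => rfl }
  have hφ : Function.Injective φ := by
    rw [← LinearMap.ker_eq_bot, LinearMap.ker_eq_bot']
    intro u hu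
    by_contra hne
    have hne' : (u : X → F) ≠ 0 := fun h => hne (Subtype.ext h)
    obtain ⟨i₀, hi₀⟩ : ∃ i, (u : X → F) i ≠ 0 := by
      by_contra hcon
      push Not at hcon
      exact hne' (funext hcon)
    obtain ⟨i, hi, hmin⟩ := exists_min_image (univ.filter fun i => (u : X → F) i ≠ 0) α
      ⟨i₀, by simpa using hi₀⟩
    rw [mem_filter] at hi
    have hil : i ∈ lead α W := by
      rw [mem_lead]
      refine ⟨u, u.2, hi.2, ?_⟩
      intro j hj
      by_contra hj0
      exact absurd (hmin j (mem_filter.mpr ⟨mem_univ _, hj0⟩)) (not_le.mpr hj)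
    exact hi.2 (congrFun hu ⟨i, hil⟩)
  have h := LinearMap.finrank_le_finrank_of_injective hφ
  rwa [Module.finrank_fintype_fun_eq_card, Fintype.card_coe] at h

end

variable {X Y : Type*} [Fintype X] [DecidableEq X] [Fintype Y] [DecidableEq Y]

theorem finrank_ker_mulVec (R : Matrix X Y F) :
    Module.finrank F (LinearMap.ker R.mulVecLin) = Fintype.card Y - R.rank := by
  have h := LinearMap.finrank_range_add_finrank_ker R.mulVecLin
  rw [Module.finrank_fintype_fun_eq_card] at h
  unfold Matrix.rank
  omega

/-- A derivation applied to `R` gives zero on the two kernels of `R`. -/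
theorem derivation_kernels (D : F → F) (hadd : ∀ x y, D (x + y) = D x + D y)
    (hmul : ∀ x y, D (x * y) = x * D y + y * D x) (R : Matrix X Y F)
    (u : X → F) (v : Y → F) (hu : ∀ j, ∑ i, R i j * u i = 0) (hv : ∀ i, ∑ j, R i j * v j = 0) :
    ∑ i, ∑ j, D (R i j) * (u i * v j) = 0 := by
  have h0 : D 0 = 0 := by
    have := hadd 0 0
    rw [add_zero] at this
    simpa using this
  have hsum : ∀ (g : X → F), D (∑ i, g i) = ∑ i, D (g i) := by
    intro g
    have : ∀ s : Finset X, D (∑ i ∈ s, g i) = ∑ i ∈ s, D (g i) := by
      intro s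
      classical
      induction s using Finset.induction_on with
      | empty => simpa using h0
      | insert a s ha ih => rw [sum_insert ha, sum_insert ha, hadd, ih]
    exact this univ
  have h1 : ∀ j, ∑ i, D (R i j) * u i = - ∑ i, R i j * D (u i) := by
    intro j
    have h := congrArg D (hu j)
    rw [hsum, h0] at h
    have h2 : ∑ i, D (R i j * u i) = ∑ i, R i j * D (u i) + ∑ i, D (R i j) * u i := by
      rw [← sum_add_distrib]
      refine sum_congr rfl fun i _ => ?_
      rw [hmul]
      ring
    rw [h2] at h
    exact eq_neg_of_add_eq_zero_right h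
  calc ∑ i, ∑ j, D (R i j) * (u i * v j) = ∑ j, (∑ i, D (R i j) * u i) * v j := by
        rw [sum_comm]
        refine sum_congr rfl fun j _ => ?_
        rw [sum_mul]
        refine sum_congr rfl fun i _ => ?_
        ring
    _ = - ∑ i, D (u i) * ∑ j, R i j * v j := by
        rw [sum_congr rfl (fun j _ => by rw [h1 j])]
        simp only [neg_mul, sum_neg_distrib, neg_inj, sum_mul, mul_sum]
        rw [sum_comm]
        refine sum_congr rfl fun i _ => sum_congr rfl fun j _ => ?_
        ring
    _ = 0 := by
        rw [sum_congr rfl (fun i _ => by rw [hv i, mul_zero])]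
        simp

/-- The lower bound in the integer model, for rectangular matrices. -/
theorem lower_rect [Algebra ℚ F] (a : X → ℤ) (b : Y → ℤ) (ha : Function.Injective a)
    (hb : Function.Injective b) (f : ℤ → F)
    (hf : AlgebraicIndependent ℚ (fun x : {g : ℤ | ∃ i j, a i + b j = g} => f x))
    (R S : Matrix X Y F) (h : ∀ i j, f (a i + b j) = R i j + S i j) :
    ∃ (I : Finset X) (J : Finset Y), Fintype.card X - R.rank ≤ I.card ∧
      Fintype.card Y - R.rank ≤ J.card ∧
      ((I ×ˢ J).image (fun x => a x.1 + b x.2)).card ≤
        ({p : X × Y | S p.1 p.2 ≠ 0} : Set (X × Y)).ncard := by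
  classical
  set I := lead a (LinearMap.ker Rᵀ.mulVecLin) with hI
  set J := lead b (LinearMap.ker R.mulVecLin) with hJ
  refine ⟨I, J, ?_, ?_, ?_⟩
  · rw [← Matrix.rank_transpose, ← finrank_ker_mulVec]
    exact finrank_le_lead _ _
  · rw [← finrank_ker_mulVec]
    exact finrank_le_lead _ _
  set C : Finset ℤ := (I ×ˢ J).image (fun x => a x.1 + b x.2) with hC
  have hex : ∀ c : C, ∃ (i : X) (j : Y) (u : X → F) (v : Y → F), a i + b j = c ∧
      u ∈ LinearMap.ker Rᵀ.mulVecLin ∧ u i ≠ 0 ∧ (∀ k, a k < a i → u k = 0) ∧
      v ∈ LinearMap.ker R.mulVecLin ∧ v j ≠ 0 ∧ (∀ k, b k < b j → v k = 0) := by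
    intro c
    obtain ⟨x, hx, hxc⟩ := mem_image.mp c.2
    rw [mem_product] at hx
    obtain ⟨u, hu1, hu2, hu3⟩ := mem_lead.mp hx.1
    obtain ⟨v, hv1, hv2, hv3⟩ := mem_lead.mp hx.2
    exact ⟨x.1, x.2, u, v, hxc, hu1, hu2, hu3, hv1, hv2, hv3⟩
  choose ic jc u v hcs hu1 hu2 hu3 hv1 hv2 hv3 using hex
  let P : Matrix C C F := fun c c' => ∑ i, ∑ j, if a i + b j = c' then u c i * v c j else 0
  have hPtri : P.BlockTriangular id := by
    intro c c' hcc
    simp only [id] at hcc
    refine sum_eq_zero fun i _ => sum_eq_zero fun j _ => ?_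
    split_ifs with hij
    · by_cases h1 : a i < a (ic c)
      · rw [hu3 c i h1, zero_mul]
      · by_cases h2 : b j < b (jc c)
        · rw [hv3 c j h2, mul_zero]
        · exfalso
          have h3 := hcs c
          have h4 : (c' : ℤ) < c := hcc
          omega
    · rfl
  have hPdiag : ∀ c, P c c = u c (ic c) * v c (jc c) := by
    intro c
    show ∑ i, ∑ j, (if a i + b j = c then u c i * v c j else 0) = _
    rw [Finset.sum_eq_single (ic c), Finset.sum_eq_single (jc c), if_pos (hcs c)]
    · intro j _ hj
      rw [if_neg]
      intro hh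
      apply hj
      apply hb
      have := hcs c
      omega
    · intro hh
      exact absurd (mem_univ _) hh
    · intro i _ hi
      refine sum_eq_zero fun j _ => ?_
      split_ifs with hij
      · by_cases h1 : a i < a (ic c)
        · rw [hu3 c i h1, zero_mul]
        · by_cases h2 : b j < b (jc c)
          · rw [hv3 c j h2, mul_zero]
          · exfalso
            apply hi
            apply ha
            have := hcs c
            omega
      · rfl
    · intro hh
      exact absurd (mem_univ _) hh
  have hdet : IsUnit P.det := by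
    rw [Matrix.det_of_isUpperTriangular hPtri, isUnit_iff_ne_zero]
    refine prod_ne_zero_iff.mpr fun c _ => ?_
    rw [hPdiag c]
    exact mul_ne_zero (hu2 c) (hv2 c)
  set E : Finset (X × Y) := univ.filter (fun p => S p.1 p.2 ≠ 0) with hE
  have hEc : ({p : X × Y | S p.1 p.2 ≠ 0} : Set (X × Y)).ncard = E.card := by
    rw [← Set.ncard_coe_finset]
    congr 1
    ext x
    simp [hE]
  rw [hEc]
  let w : X × Y → (C → F) := fun p c => u c p.1 * v c p.2
  have hspan : (⊤ : Submodule F (C → F)) ≤
      Submodule.span F ((E.image w : Finset (C → F)) : Set (C → F)) := by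
    intro x _
    obtain ⟨g, rfl⟩ : ∃ g : C → F, P.mulVec g = x :=
      ⟨P⁻¹.mulVec x, by rw [Matrix.mulVec_mulVec, Matrix.mul_nonsing_inv _ hdet, Matrix.one_mulVec]⟩
    let ĝ : ℤ → F := fun y => if hy : y ∈ C then g ⟨y, hy⟩ else 0
    obtain ⟨D, hD⟩ := MP60829e.PS.exists_derivation_of_algebraicIndependent hf
      (fun x : {g : ℤ | ∃ i j, a i + b j = g} => ĝ x)
    have hD' : ∀ i j, D (f (a i + b j)) = ĝ (a i + b j) := fun i j => hD ⟨a i + b j, i, j, rfl⟩
    have hval : P.mulVec g = ∑ p ∈ E, D (S p.1 p.2) • w p := by
      ext c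
      have e1 : P.mulVec g c = ∑ i, ∑ j, ĝ (a i + b j) * (u c i * v c j) := by
        show ∑ c', P c c' * g c' = _
        have : ∀ c' : C, P c c' * g c' =
            ∑ i, ∑ j, (if a i + b j = c' then ĝ (a i + b j) * (u c i * v c j) else 0) := by
          intro c'
          show (∑ i, ∑ j, if a i + b j = c' then u c i * v c j else 0) * g c' = _
          rw [sum_mul]
          refine sum_congr rfl fun i _ => ?_
          rw [sum_mul]
          refine sum_congr rfl fun j _ => ?_
          split_ifs with hij
          · have : ĝ (a i + b j) = g c' := by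
              simp only [ĝ]
              rw [dif_pos (by rw [hij]; exact c'.2)]
              congr 1
              exact Subtype.ext hij
            rw [this]
            ring
          · rw [zero_mul]
        rw [sum_congr rfl (fun c' _ => this c'), sum_comm]
        refine sum_congr rfl fun i _ => ?_
        rw [sum_comm]
        refine sum_congr rfl fun j _ => ?_
        by_cases hy : a i + b j ∈ C
        · rw [Finset.sum_eq_single ⟨a i + b j, hy⟩]
          · simp
          · intro c' _ hc'
            rw [if_neg]
            intro hh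
            exact hc' (Subtype.ext hh.symm)
          · intro hh
            exact absurd (mem_univ _) hh
        · have h0 : ĝ (a i + b j) = 0 := by
            simp only [ĝ]
            rw [dif_neg hy]
          rw [h0, zero_mul]
          simp
      have e2 : ∑ i, ∑ j, D (R i j) * (u c i * v c j) = 0 := by
        refine derivation_kernels (fun x => D x) (fun x y => map_add D x y) ?_ R (u c) (v c) ?_ ?_
        · intro x y
          have := D.leibniz x y
          simp only [smul_eq_mul] at this
          exact this
        · intro j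
          exact congrFun (LinearMap.mem_ker.mp (hu1 c)) j
        · intro i
          exact congrFun (LinearMap.mem_ker.mp (hv1 c)) i
      have e3 : ∑ i, ∑ j, ĝ (a i + b j) * (u c i * v c j) =
          ∑ i, ∑ j, D (S i j) * (u c i * v c j) := by
        have : ∀ i j, ĝ (a i + b j) * (u c i * v c j) =
            D (R i j) * (u c i * v c j) + D (S i j) * (u c i * v c j) := by
          intro i j
          rw [← hD' i j, h i j, map_add]
          ring
        simp only [this, sum_add_distrib]
        rw [e2, zero_add]
      rw [e1, e3, Finset.sum_apply]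
      rw [← Fintype.sum_prod_type' (f := fun i j => D (S i j) * (u c i * v c j))]
      rw [hE, sum_filter]
      refine sum_congr rfl fun p _ => ?_
      split_ifs with hp
      · rfl
      · rw [not_not] at hp
        rw [hp, map_zero, zero_mul]
    rw [hval]
    refine Submodule.sum_mem _ fun p hp => Submodule.smul_mem _ _ (Submodule.subset_span ?_)
    rw [mem_coe]
    exact mem_image_of_mem w hp
  have h1 : Module.finrank F (⊤ : Submodule F (C → F)) ≤ (E.image w).card :=
    (Submodule.finrank_mono hspan).trans (finrank_span_finset_le_card _)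
  rw [finrank_top, Module.finrank_fintype_fun_eq_card, Fintype.card_coe] at h1
  exact h1.trans card_image_le

end MP0775d3.Sum
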