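import Pool.Agent.Lib.MP_0775d3_lc.Kron.Pow
import Pool.Agent.Lib.MP_0775d3_lc.Sum.Defs

/-! Masked matrices and low rank plus sparse decompositions. -/

set_option linter.unusedSectionVars false

namespace MP0775d3.Sum

open Matrix MP0775d3.Kron

variable {F : Type*} [Field F] {X : Type*} [Fintype X] [DecidableEq X]

/-- Keep only the rows in `u` and the columns in `v`. -/
def msk (u v : X → Prop) [DecidablePred u] [DecidablePred v] (M : Matrix X X F) : Matrix X X F :=
  Matrix.of fun i j => if u i ∧ v j then M i j else 0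

theorem msk_eq (u v : X → Prop) [DecidablePred u] [DecidablePred v] (M : Matrix X X F) :
    msk u v M = Matrix.diagonal (fun i => if u i then (1 : F) else 0) * M *
      Matrix.diagonal (fun j => if v j then (1 : F) else 0) := by
  ext i j
  rw [Matrix.mul_diagonal, Matrix.diagonal_mul]
  by_cases h1 : u i <;> by_cases h2 : v j <;> simp [msk, h1, h2]

theorem rank_msk_le (u v : X → Prop) [DecidablePred u] [DecidablePred v] (M : Matrix X X F) :
    (msk u v M).rank ≤ M.rank := by
  rw [msk_eq]
  exact (Matrix.rank_mul_le_left _ _).trans (Matrix.rank_mul_le_right _ _)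

theorem Sparse_msk (u v : X → Prop) [DecidablePred u] [DecidablePred v] {M : Matrix X X F} {s : ℝ}
    (h : Sparse M s) : Sparse (msk u v M) s := by
  constructor
  · intro x
    refine le_trans ?_ (h.1 x)
    have : ({y | msk u v M x y ≠ 0} : Set X) ⊆ {y | M x y ≠ 0} := by
      intro y hy h0
      apply hy
      simp [msk, h0]
    exact_mod_cast Set.ncard_le_ncard this (Set.toFinite _)
  · intro y
    refine le_trans ?_ (h.2 y)
    have : ({x | msk u v M x y ≠ 0} : Set X) ⊆ {x | M x y ≠ 0} := by
      intro x hx h0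
      apply hx
      simp [msk, h0]
    exact_mod_cast Set.ncard_le_ncard this (Set.toFinite _)

theorem Dec_msk (u v : X → Prop) [DecidablePred u] [DecidablePred v] {M : Matrix X X F} {r s : ℝ}
    (h : Dec M r s) : Dec (msk u v M) r s := by
  obtain ⟨R, S, h1, h2, h3⟩ := h
  refine ⟨msk u v R, msk u v S, ?_, ?_, Sparse_msk u v h3⟩
  · rw [h1]
    ext i j
    by_cases h : u i ∧ v j <;> simp [msk, h]
  · exact le_trans (by exact_mod_cast rank_msk_le u v R) h2

theorem Dec_add {M M' : Matrix X X F} {r s r' s' : ℝ} (h : Dec M r s) (h' : Dec M' r' s') :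
    Dec (M + M') (r + r') (s + s') := by
  obtain ⟨R, S, h1, h2, h3⟩ := h
  obtain ⟨R', S', h1', h2', h3'⟩ := h'
  refine ⟨R + R', S + S', by rw [h1, h1']; abel, ?_, h3.add h3'⟩
  calc ((R + R').rank : ℝ) ≤ ((R.rank + R'.rank : ℕ) : ℝ) := by exact_mod_cast rank_add_le R R'
    _ = R.rank + R'.rank := by push_cast; rfl
    _ ≤ r + r' := add_le_add h2 h2'

theorem Dec_zero {r s : ℝ} (hr : 0 ≤ r) (hs : 0 ≤ s) : Dec (0 : Matrix X X F) r s :=
  ⟨0, 0, by simp, by simpa using hr, sparse_zero.mono hs⟩

theorem Dec_sum {κ : Type*} (k : Finset κ) (M : κ → Matrix X X F) {r s : ℝ}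
    (h : ∀ i ∈ k, Dec (M i) r s) : Dec (∑ i ∈ k, M i) (k.card * r) (k.card * s) := by
  classical
  induction k using Finset.induction_on with
  | empty => simpa using Dec_zero le_rfl le_rfl
  | insert i k hi ih =>
    rw [Finset.sum_insert hi, Finset.card_insert_of_notMem hi]
    have h1 := Dec_add (h i (Finset.mem_insert_self _ _))
      (ih (fun j hj => h j (Finset.mem_insert_of_mem hj)))
    refine h1.mono (le_of_eq ?_) (le_of_eq ?_)
    · push_cast
      ring
    · push_cast
      ring

theorem rank_le_rows (M : Matrix X X F) (U : Finset X) (h : ∀ i, i ∉ U → ∀ j, M i j = 0) :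
    M.rank ≤ U.card := by
  refine Matrix.rank_le_card_of_support_subset _ _ ?_
  intro x hx
  by_contra hU
  apply hx
  ext y
  simp only [Matrix.row]
  exact h x (by simpa using hU) y

/-- Changing the rows in `U` and the columns in `V`. -/
theorem Dec_near {M M' : Matrix X X F} {r s : ℝ} (h : Dec M' r s) (U V : Finset X)
    (hM : ∀ i, i ∉ U → ∀ j, j ∉ V → M i j = M' i j) :
    Dec M (r + (U.card + V.card)) s := by
  classical
  obtain ⟨R, S, h1, h2, h3⟩ := h
  let R₁ : Matrix X X F := Matrix.of fun i j => if i ∈ U then M i j - M' i j else 0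
  let R₂ : Matrix X X F := Matrix.of fun i j => if i ∉ U then M i j - M' i j else 0
  refine ⟨R + (R₁ + R₂), S, ?_, ?_, h3⟩
  · have : M = M' + (R₁ + R₂) := by
      ext i j
      by_cases h : i ∈ U <;> simp [R₁, R₂, h]
    rw [this, h1]
    abel
  · have e1 : R₁.rank ≤ U.card := by
      refine rank_le_rows _ _ fun i hi j => ?_
      simp [R₁, hi]
    have e2 : R₂.rank ≤ V.card := by
      rw [← Matrix.rank_transpose]
      refine rank_le_rows _ _ fun j hj i => ?_
      by_cases h : i ∈ U
      · simp [R₂, h]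
      · simp [R₂, h, hM i h j hj]
    calc ((R + (R₁ + R₂)).rank : ℝ) ≤ ((R.rank + (R₁.rank + R₂.rank) : ℕ) : ℝ) := by
          exact_mod_cast (rank_add_le R _).trans (Nat.add_le_add_left (rank_add_le R₁ R₂) _)
      _ = R.rank + (R₁.rank + R₂.rank) := by push_cast; rfl
      _ ≤ r + (U.card + V.card) := by
          gcongr

end MP0775d3.Sum
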