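import Pool.Agent.Lib.MP_0775d3_lc.Sum.Extend
import Pool.Agent.Lib.MP_0775d3_lc.Sum.Mask

/-! One round of hashing. -/

set_option linter.unusedSectionVars false

namespace MP0775d3.Sum

open Finset Matrix MP0775d3.Kron

variable {F : Type*} [Field F]

/-- The function `f` cut down to `T`. -/
noncomputable def cut (T : Finset ℤ) (f : ℤ → F) (x : ℤ) : F := if x ∈ T then f x else 0

/-- The kernel on `ZMod N` which represents `f` on the sums of one block. -/
theorem exists_kernel (p N : ℕ) (hp : p.Prime) (q : ℕ) (hq : q ∈ Ico 1 p) (c : ℤ)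
    (T S : Finset ℤ) (hS : ∀ t ∈ T, ∀ s ∈ S, s ≠ t → ¬ (p : ℤ) ∣ s - t)
    (hT : ∀ t ∈ T, ¬ ∃ s ∈ S, s ≠ t ∧ Coll p N q (s - t)) (f : ℤ → F) :
    ∃ k : ZMod N → F, ∀ s ∈ S, k ((sig p q c s : ℤ) : ZMod N) = cut T f s := by
  classical
  refine ⟨fun z => if h : ∃ t ∈ T, ((sig p q c t : ℤ) : ZMod N) = z then f h.choose else 0, ?_⟩
  intro s hs
  have key : ∀ t ∈ T, ((sig p q c t : ℤ) : ZMod N) = ((sig p q c s : ℤ) : ZMod N) → s = t := by
    intro t ht hts
    by_contra hne
    refine hT t ht ⟨s, hs, hne, ?_⟩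
    refine sig_coll p N hp q hq c s t (hS t ht s hs hne) ?_
    rw [← ZMod.intCast_zmod_eq_zero_iff_dvd]
    push_cast
    rw [hts, sub_self]
  simp only
  split_ifs with h
  · have h1 := h.choose_spec
    have h2 := key _ h1.1 h1.2
    unfold cut
    rw [← h2] at h1 ⊢
    rw [if_pos h1.1]
  · unfold cut
    rw [if_neg]
    intro hsT
    exact h ⟨s, hsT, rfl⟩

/-- One round. -/
theorem round {n : ℕ} (N p : ℕ) (hp : p.Prime) (hN : 0 < N) (hnN : n ≤ N) (a b : Fin n → ℤ)
    (I J : Finset (Fin n)) (S T : Finset ℤ) (hTS : T ⊆ S) (hS : ∀ i ∈ I, ∀ j ∈ J, a i + b j ∈ S)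
    (hp1 : ∀ t ∈ S, ∀ s ∈ S, s ≠ t → ¬ (p : ℤ) ∣ s - t)
    (hp2 : ∀ t ∈ I, ∀ s ∈ I, s ≠ t → ¬ (p : ℤ) ∣ a s - a t)
    (hp3 : ∀ t ∈ J, ∀ s ∈ J, s ≠ t → ¬ (p : ℤ) ∣ b s - b t) :
    ∃ T' : Finset ℤ, T' ⊆ T ∧ (T'.card : ℝ) ≤ 6 * S.card / N * T.card ∧
      ∀ (F : Type*) [Field F] (r s : ℝ)
      (_ : ∀ (α β : Fin n → ZMod N), Function.Injective α → Function.Injective β →
        ∀ k : ZMod N → F, Dec (Matrix.of fun i j => k (α i + β j)) r s) (f : ℤ → F) (r' s' : ℝ),
      Dec (msk (· ∈ I) (· ∈ J) (sumMatrix (cut T' f) a b)) r' s' →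
      Dec (msk (· ∈ I) (· ∈ J) (sumMatrix (cut T f) a b)) (r' + (4 * r + 12 * n ^ 2 / N))
        (s' + 4 * s) := by
  classical
  have : NeZero N := ⟨hN.ne'⟩
  have hNr : (0 : ℝ) < N := by exact_mod_cast hN
  have hne : (Ico 1 p).Nonempty := ⟨1, by simp [hp.one_lt]⟩
  obtain ⟨q, hq, g1, g2, g3⟩ := exists_good (Ico 1 p) hne
    (fun q => ((T.filter (fun t => ∃ s ∈ S, s ≠ t ∧ Coll p N q (s - t))).card : ℝ))
    (fun q => ((I.filter (fun t => ∃ s ∈ I, s ≠ t ∧ Coll p N q (a s - a t))).card : ℝ))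
    (fun q => ((J.filter (fun t => ∃ s ∈ J, s ≠ t ∧ Coll p N q (b s - b t))).card : ℝ))
    (fun _ _ => Nat.cast_nonneg _) (fun _ _ => Nat.cast_nonneg _) (fun _ _ => Nat.cast_nonneg _)
    (T.card * S.card * 2 / N) (I.card * I.card * 2 / N) (J.card * J.card * 2 / N)
    (by convert sum_bad p N hp hN T S (fun x => x) (fun t ht s hs hst => hp1 t (hTS ht) s hs hst))
    (by convert sum_bad p N hp hN I I a hp2) (by convert sum_bad p N hp hN J J b hp3)
  set T' := T.filter (fun t => ∃ s ∈ S, s ≠ t ∧ Coll p N q (s - t)) with hT'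
  set U := I.filter (fun t => ∃ s ∈ I, s ≠ t ∧ Coll p N q (a s - a t)) with hU
  set V := J.filter (fun t => ∃ s ∈ J, s ≠ t ∧ Coll p N q (b s - b t)) with hV
  refine ⟨T', filter_subset _ _, ?_, ?_⟩
  · refine g1.trans (le_of_eq ?_)
    ring
  intro F _ r s hker f r' s' hdec
  -- injective nodes
  have hnc : n ≤ Fintype.card (ZMod N) := by rwa [ZMod.card]
  have hinj : ∀ (L : Finset (Fin n)) (c : Fin n → ℤ),
      (∀ t ∈ L, ∀ s ∈ L, s ≠ t → ¬ (p : ℤ) ∣ c s - c t) →
      Set.InjOn (fun i => ((lam p q (c i) : ℤ) : ZMod N))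
        ((L \ L.filter (fun t => ∃ s ∈ L, s ≠ t ∧ Coll p N q (c s - c t)) : Finset (Fin n)) :
          Set (Fin n)) := by
    intro L c hL i hi j hj hij
    by_contra hne'
    rw [mem_coe, mem_sdiff] at hi hj
    refine hj.2 (mem_filter.mpr ⟨hj.1, i, hi.1, hne', ?_⟩)
    refine lam_coll p N hp q hq _ _ (hL j hj.1 i hi.1 hne') ?_
    rw [← ZMod.intCast_zmod_eq_zero_iff_dvd]
    push_cast
    rw [sub_eq_zero]
    exact hij
  obtain ⟨α, hα, hα'⟩ := exists_extend hnc (I \ U) _ (hinj I a hp2)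
  obtain ⟨β, hβ, hβ'⟩ := exists_extend hnc (J \ V) _ (hinj J b hp3)
  have hk : ∀ e : Bool × Bool, ∃ k : ZMod N → F, ∀ s ∈ S,
      k ((sig p q (off p e.1 e.2) s : ℤ) : ZMod N) = cut (T \ T') f s := by
    intro e
    refine exists_kernel p N hp q hq _ (T \ T') S
      (fun t ht s hs hst => hp1 t (hTS (mem_sdiff.mp ht).1) s hs hst) ?_ f
    intro t ht hex
    rw [mem_sdiff] at ht
    exact ht.2 (mem_filter.mpr ⟨ht.1, hex⟩)
  choose k hk using hk
  let M : Bool × Bool → Matrix (Fin n) (Fin n) F := fun e =>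
    msk (fun i => i ∈ I ∧ up p q (a i) = e.1) (fun j => j ∈ J ∧ up p q (b j) = e.2)
      (Matrix.of fun i j => k e (α i + β j))
  have hM : Dec (∑ e : Bool × Bool, M e) (4 * r) (4 * s) := by
    have h1 := Dec_sum univ M (fun e _ => Dec_msk _ _ (hker α β hα hβ (k e)))
    have h2 : ((univ : Finset (Bool × Bool)).card : ℝ) = 4 := by
      rw [card_univ, Fintype.card_prod, Fintype.card_bool]
      norm_num
    rwa [h2] at h1
  have hfin := Dec_near (M := msk (· ∈ I) (· ∈ J) (sumMatrix (cut T f) a b)) (Dec_add hdec hM) U V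
    (by
      intro i hi j hj
      rw [Matrix.add_apply, Matrix.sum_apply]
      by_cases hI : i ∈ I
      · by_cases hJ : j ∈ J
        · have hs := hS i hI j hJ
          rw [Finset.sum_eq_single (up p q (a i), up p q (b j))]
          · have e1 : α i + β j =
                ((sig p q (off p (up p q (a i)) (up p q (b j))) (a i + b j) : ℤ) : ZMod N) := by
              rw [← lam_add p hp.pos, hα' i (mem_sdiff.mpr ⟨hI, hi⟩),
                hβ' j (mem_sdiff.mpr ⟨hJ, hj⟩)]
              push_cast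
              rfl
            simp only [msk, M, Matrix.of_apply, hI, hJ, and_self, if_true, sumMatrix]
            rw [e1, hk (up p q (a i), up p q (b j)) _ hs]
            unfold cut
            by_cases h1 : a i + b j ∈ T
            · by_cases h2 : a i + b j ∈ T'
              · simp [h1, h2]
              · simp [h1, h2]
            · have h2 : a i + b j ∉ T' := fun h => h1 (filter_subset _ _ h)
              simp [h1, h2]
          · intro e _ he
            simp only [M, msk, Matrix.of_apply]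
            rw [if_neg]
            rintro ⟨⟨_, h1⟩, ⟨_, h2⟩⟩
            exact he (Prod.ext h1.symm h2.symm)
          · intro h
            exact absurd (mem_univ _) h
        · simp [msk, M, hJ]
      · simp [msk, M, hI])
  refine hfin.mono ?_ le_rfl
  have hIn : (I.card : ℝ) ≤ n := by
    have := card_le_univ I
    rw [Fintype.card_fin] at this
    exact_mod_cast this
  have hJn : (J.card : ℝ) ≤ n := by
    have := card_le_univ J
    rw [Fintype.card_fin] at this
    exact_mod_cast this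
  have hI0 : (0 : ℝ) ≤ I.card := Nat.cast_nonneg _
  have hJ0 : (0 : ℝ) ≤ J.card := Nat.cast_nonneg _
  have u1 : (U.card : ℝ) ≤ 6 * n ^ 2 / N := by
    refine g2.trans ?_
    have : (3 : ℝ) * (I.card * I.card * 2 / N) = 6 * (I.card * I.card) / N := by ring
    rw [this]
    gcongr
    nlinarith
  have v1 : (V.card : ℝ) ≤ 6 * n ^ 2 / N := by
    refine g3.trans ?_
    have : (3 : ℝ) * (J.card * J.card * 2 / N) = 6 * (J.card * J.card) / N := by ring
    rw [this]
    gcongr
    nlinarith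
  have : (12 : ℝ) * n ^ 2 / N = 6 * n ^ 2 / N + 6 * n ^ 2 / N := by ring
  rw [this]
  linarith

end MP0775d3.Sum
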