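import Pool.Agent.Lib.MP_0775d3_lc.Kron.Final
import Pool.Agent.Lib.MP_0775d3_lc.Sum.Freiman
import Pool.Agent.Lib.MP_0775d3_lc.Sum.Round

/-! Sum matrices with few sums are low rank plus sparse. -/

set_option linter.unusedSectionVars false

namespace MP0775d3.Sum

open Finset Matrix Filter MP0775d3.Kron

universe u v

/-- Iterating the rounds. -/
theorem iterate {n : ℕ} (N p : ℕ) (hp : p.Prime) (hN : 0 < N) (hnN : n ≤ N) (a b : Fin n → ℤ)
    (I J : Finset (Fin n)) (S : Finset ℤ) (hS : ∀ i ∈ I, ∀ j ∈ J, a i + b j ∈ S)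
    (hp1 : ∀ t ∈ S, ∀ s ∈ S, s ≠ t → ¬ (p : ℤ) ∣ s - t)
    (hp2 : ∀ t ∈ I, ∀ s ∈ I, s ≠ t → ¬ (p : ℤ) ∣ a s - a t)
    (hp3 : ∀ t ∈ J, ∀ s ∈ J, s ≠ t → ¬ (p : ℤ) ∣ b s - b t)
    {F : Type u} [Field F] (r s : ℝ)
    (hker : ∀ (α β : Fin n → ZMod N), Function.Injective α → Function.Injective β →
        ∀ k : ZMod N → F, Dec (Matrix.of fun i j => k (α i + β j)) r s) (f : ℤ → F) (k : ℕ) :
    ∀ T : Finset ℤ, T ⊆ S → (6 * (S.card : ℝ) / N) ^ k * T.card < 1 →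
      Dec (msk (· ∈ I) (· ∈ J) (sumMatrix (cut T f) a b)) (k * (4 * r + 12 * n ^ 2 / N))
        (k * (4 * s)) := by
  induction k with
  | zero =>
    intro T _ hT
    rw [pow_zero, one_mul] at hT
    have h1 : T.card < 1 := by exact_mod_cast hT
    have h2 : T = ∅ := card_eq_zero.mp (by omega)
    have h3 : msk (· ∈ I) (· ∈ J) (sumMatrix (cut T f) a b) = 0 := by
      ext i j
      simp [msk, sumMatrix, cut, h2]
    rw [h3]
    exact Dec_zero (by simp) (by simp)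
  | succ k ih =>
    intro T hTS hT
    obtain ⟨T', hT'1, hT'2, h⟩ := round N p hp hN hnN a b I J S T hTS hS hp1 hp2 hp3
    have h1 : (6 * (S.card : ℝ) / N) ^ k * T'.card < 1 := by
      refine lt_of_le_of_lt ?_ hT
      rw [pow_succ, mul_assoc]
      exact mul_le_mul_of_nonneg_left hT'2 (by positivity)
    have h2 := h F r s hker f _ _ (ih T' (hT'1.trans hTS) h1)
    refine h2.mono (le_of_eq ?_) (le_of_eq ?_)
    · push_cast
      ring
    · push_cast
      ring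

theorem rpow_eventually (e c : ℝ) (he : 0 < e) : ∀ᶠ n : ℕ in atTop, c ≤ (n : ℝ) ^ e :=
  ((tendsto_rpow_atTop he).comp tendsto_natCast_atTop_atTop).eventually_ge_atTop c

theorem upper (δ : ℝ) (hδ : 0 < δ) : ∃ γ : ℝ, 0 < γ ∧ ∃ n₀ : ℕ, ∀ n : ℕ, n₀ ≤ n →
    ∀ (G : Type v) [AddCommGroup G] [IsAddTorsionFree G] (a b : Fin n → G),
    Function.Injective a → Function.Injective b → ∀ I J : Finset (Fin n),
    (numSums a b I J : ℝ) ≤ (n : ℝ) ^ (1 + γ) →
    ∀ (F : Type u) [Field F] (f : G → F),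
    Dec (sumMatrix f a b) (((n : ℝ) - I.card) + ((n : ℝ) - J.card) + (n : ℝ) ^ (1 - γ))
      ((n : ℝ) ^ δ) := by
  obtain ⟨γ₀, hγ₀, n₁, hA⟩ := partA.{u, 0} (δ / 2) (by positivity)
  set K : ℕ := ⌊4 / γ₀⌋₊ + 1 with hK
  have hKr : 4 / γ₀ < K := by
    rw [hK]
    push_cast
    exact Nat.lt_floor_add_one _
  set γ : ℝ := min (γ₀ / 4) 1 with hγ
  have hγ0 : 0 < γ := lt_min (by positivity) one_pos
  have hγ1 : γ ≤ γ₀ / 4 := min_le_left _ _
  have hγ2 : γ ≤ 1 := min_le_right _ _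
  obtain ⟨n₀, hn₀⟩ := eventually_atTop.mp ((rpow_eventually (γ₀ / 4) 12 (by positivity)).and
    ((rpow_eventually (γ₀ / 2) (28 * K) (by positivity)).and
      ((rpow_eventually (δ / 2) (4 * K) (by positivity)).and
        ((eventually_ge_atTop n₁).and (eventually_ge_atTop 2)))))
  refine ⟨γ, hγ0, n₀, ?_⟩
  intro n hn G _ _ a b ha hb I J hIJ F _ f
  classical
  obtain ⟨c1, c2, c3, c4, c5⟩ := hn₀ n hn
  have hn1 : (1 : ℝ) ≤ n := by exact_mod_cast (by omega : 1 ≤ n)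
  have hn2 : (1 : ℝ) < n := by exact_mod_cast (by omega : 1 < n)
  have hn0 : (0 : ℝ) < n := by linarith
  -- the modulus
  set N : ℕ := ⌊(n : ℝ) ^ (1 + γ₀)⌋₊ with hN
  have hN1 : (N : ℝ) ≤ (n : ℝ) ^ (1 + γ₀) := Nat.floor_le (by positivity)
  have hnN : n ≤ N := by
    rw [hN]
    refine Nat.le_floor ?_
    calc (n : ℝ) = (n : ℝ) ^ (1 : ℝ) := (Real.rpow_one _).symm
      _ ≤ (n : ℝ) ^ (1 + γ₀) := Real.rpow_le_rpow_of_exponent_le hn1 (by linarith)
  have hNpos : 0 < N := by omega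
  have hNr : (0 : ℝ) < N := by exact_mod_cast hNpos
  have hN2 : (n : ℝ) ^ (1 + γ₀) / 2 ≤ N := by
    have h1 : (n : ℝ) ^ (1 + γ₀) < N + 1 := Nat.lt_floor_add_one _
    have h2 : (1 : ℝ) ≤ N := by exact_mod_cast hNpos
    linarith
  have : NeZero N := ⟨hNpos.ne'⟩
  -- kernels on `ZMod N`
  have hker : ∀ (α β : Fin n → ZMod N), Function.Injective α → Function.Injective β →
      ∀ k : ZMod N → F, Dec (Matrix.of fun i j => k (α i + β j)) ((n : ℝ) ^ (1 - γ₀))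
        ((n : ℝ) ^ (δ / 2)) := by
    intro α β hα hβ k
    have h := partC (δ / 2) γ₀ n F (fun A X _ _ _ _ => hA n c4 F A X)
      (Multiplicative (ZMod N)) ⊤ (fun g _ h _ => mul_comm g h) ?_ ?_
      (fun i => Multiplicative.ofAdd (α i)) (fun j => Multiplicative.ofAdd (-β j)) ?_ ?_
      (fun z => k (Multiplicative.toAdd z))
    · convert h using 2
      ext i j
      simp
    · rw [Subgroup.index_top, Nat.cast_one]
      exact Real.one_le_rpow hn1 (by positivity)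
    · have : Nat.card (Multiplicative (ZMod N)) = N := by
        rw [Nat.card_congr Multiplicative.toAdd, Nat.card_zmod]
      rw [this]
      exact hN1
    · intro i j hij
      exact hα (Multiplicative.ofAdd.injective hij)
    · intro i j hij
      exact hβ (neg_injective (Multiplicative.ofAdd.injective hij))
  -- the integer model
  obtain ⟨a', b', ha', hb', hab⟩ := exists_model a b ha hb
  obtain ⟨f', hf'⟩ : ∃ f' : ℤ → F, ∀ i j, f' (a' i + b' j) = f (a i + b j) := by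
    have h1 : Function.FactorsThrough (fun x : Fin n × Fin n => f (a x.1 + b x.2))
        (fun x : Fin n × Fin n => a' x.1 + b' x.2) := by
      intro x y hxy
      simp only at hxy ⊢
      rw [(hab _ _ _ _).mp hxy]
    obtain ⟨e, he⟩ := (Function.factorsThrough_iff _).mp h1
    exact ⟨e, fun i j => (congrFun he (i, j)).symm⟩
  have hM : sumMatrix f a b = sumMatrix f' a' b' := by
    ext i j
    simp only [sumMatrix, Matrix.of_apply]
    exact (hf' i j).symm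
  set S : Finset ℤ := (I ×ˢ J).image (fun x => a' x.1 + b' x.2) with hSdef
  have hScard : (S.card : ℝ) ≤ (n : ℝ) ^ (1 + γ) := by
    refine le_trans ?_ hIJ
    have h1 : Function.FactorsThrough (fun x : Fin n × Fin n => a' x.1 + b' x.2)
        (fun x : Fin n × Fin n => a x.1 + b x.2) := by
      intro x y hxy
      simp only at hxy ⊢
      exact (hab _ _ _ _).mpr hxy
    obtain ⟨e, he⟩ := (Function.factorsThrough_iff _).mp h1
    have h2 : ((S : Finset ℤ) : Set ℤ) ⊆ e '' {g : G | ∃ i ∈ I, ∃ j ∈ J, a i + b j = g} := by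
      intro x hx
      rw [hSdef, mem_coe, mem_image] at hx
      obtain ⟨y, hy, rfl⟩ := hx
      rw [mem_product] at hy
      exact ⟨a y.1 + b y.2, ⟨y.1, hy.1, y.2, hy.2, rfl⟩, (congrFun he y).symm⟩
    have hfin : ({g : G | ∃ i ∈ I, ∃ j ∈ J, a i + b j = g} : Set G).Finite := by
      refine ((Set.finite_univ (α := Fin n × Fin n)).image (fun x => a x.1 + b x.2)).subset ?_
      rintro g ⟨i, _, j, _, rfl⟩
      exact ⟨(i, j), trivial, rfl⟩
    have h3 := (Set.ncard_le_ncard h2 (hfin.image e)).trans (Set.ncard_image_le hfin)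
    rw [Set.ncard_coe_finset] at h3
    unfold numSums
    exact_mod_cast h3
  have hS : ∀ i ∈ I, ∀ j ∈ J, a' i + b' j ∈ S := fun i hi j hj =>
    mem_image.mpr ⟨(i, j), mem_product.mpr ⟨hi, hj⟩, rfl⟩
  -- the prime
  obtain ⟨p, hp, hpD⟩ := exists_prime ((S ×ˢ S).image (fun x => x.1 - x.2) ∪
    ((univ : Finset (Fin n × Fin n)).image (fun x => a' x.1 - a' x.2) ∪
      (univ : Finset (Fin n × Fin n)).image (fun x => b' x.1 - b' x.2)))
  have hp1 : ∀ t ∈ S, ∀ s ∈ S, s ≠ t → ¬ (p : ℤ) ∣ s - t := fun t ht s hs hst =>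
    hpD _ (mem_union_left _ (mem_image.mpr ⟨(s, t), mem_product.mpr ⟨hs, ht⟩, rfl⟩))
      (sub_ne_zero.mpr hst)
  have hp2 : ∀ t ∈ I, ∀ s ∈ I, s ≠ t → ¬ (p : ℤ) ∣ a' s - a' t := fun t _ s _ hst =>
    hpD _ (mem_union_right _ (mem_union_left _ (mem_image.mpr ⟨(s, t), mem_univ _, rfl⟩)))
      (sub_ne_zero.mpr (fun h => hst (ha' h)))
  have hp3 : ∀ t ∈ J, ∀ s ∈ J, s ≠ t → ¬ (p : ℤ) ∣ b' s - b' t := fun t _ s _ hst =>
    hpD _ (mem_union_right _ (mem_union_right _ (mem_image.mpr ⟨(s, t), mem_univ _, rfl⟩)))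
      (sub_ne_zero.mpr (fun h => hst (hb' h)))
  -- the numerics
  have hρ : 6 * (S.card : ℝ) / N ≤ (n : ℝ) ^ (-(γ₀ / 2)) := by
    rw [div_le_iff₀ hNr]
    calc 6 * (S.card : ℝ) ≤ 6 * (n : ℝ) ^ (1 + γ) := by linarith
      _ ≤ 6 * (n : ℝ) ^ (1 + γ₀ / 4) := by
          have := Real.rpow_le_rpow_of_exponent_le hn1 (by linarith : 1 + γ ≤ 1 + γ₀ / 4)
          linarith
      _ = (12 * (n : ℝ) ^ (1 + γ₀ / 4)) / 2 := by ring
      _ ≤ ((n : ℝ) ^ (γ₀ / 4) * (n : ℝ) ^ (1 + γ₀ / 4)) / 2 := by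
          gcongr
      _ = (n : ℝ) ^ (-(γ₀ / 2)) * ((n : ℝ) ^ (1 + γ₀) / 2) := by
          rw [← Real.rpow_add hn0, ← mul_div_assoc, ← Real.rpow_add hn0]
          congr 2
          ring
      _ ≤ (n : ℝ) ^ (-(γ₀ / 2)) * N := by gcongr
  have hsmall : (6 * (S.card : ℝ) / N) ^ K * S.card < 1 := by
    calc (6 * (S.card : ℝ) / N) ^ K * S.card
        ≤ ((n : ℝ) ^ (-(γ₀ / 2))) ^ K * (n : ℝ) ^ (1 + γ) := by
          gcongr
      _ = (n : ℝ) ^ (-(γ₀ / 2) * K + (1 + γ)) := by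
          rw [← Real.rpow_natCast, ← Real.rpow_mul hn0.le, ← Real.rpow_add hn0]
      _ < 1 := by
          refine Real.rpow_lt_one_of_one_lt_of_neg hn2 ?_
          rw [div_lt_iff₀ hγ₀] at hKr
          nlinarith
  have hit := iterate N p hp hNpos hnN a' b' I J S hS hp1 hp2 hp3 _ _ hker f' K S
    (Subset.refl _) hsmall
  have hnear := Dec_near (M := sumMatrix f' a' b') hit Iᶜ Jᶜ (by
    intro i hi j hj
    rw [mem_compl, not_not] at hi hj
    simp only [msk, sumMatrix, Matrix.of_apply, hi, hj, and_self, if_true]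
    unfold cut
    rw [if_pos (hS i hi j hj)])
  rw [hM]
  have hIc : ((Iᶜ.card : ℕ) : ℝ) = n - I.card := by
    rw [card_compl, Fintype.card_fin, Nat.cast_sub (by simpa using card_le_univ I)]
  have hJc : ((Jᶜ.card : ℕ) : ℝ) = n - J.card := by
    rw [card_compl, Fintype.card_fin, Nat.cast_sub (by simpa using card_le_univ J)]
  refine hnear.mono ?_ ?_
  · rw [hIc, hJc]
    have h1 : (12 : ℝ) * n ^ 2 / N ≤ 24 * (n : ℝ) ^ (1 - γ₀) := by
      rw [div_le_iff₀ hNr]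
      calc (12 : ℝ) * n ^ 2 = 24 * (n : ℝ) ^ (1 - γ₀) * ((n : ℝ) ^ (1 + γ₀) / 2) := by
            have : (n : ℝ) ^ (1 - γ₀) * (n : ℝ) ^ (1 + γ₀) = (n : ℝ) ^ 2 := by
              rw [← Real.rpow_add hn0, ← Real.rpow_natCast]
              congr 1
              push_cast
              ring
            rw [mul_div_assoc', mul_assoc, this]
            ring
        _ ≤ 24 * (n : ℝ) ^ (1 - γ₀) * N := by gcongr
    have h2 : (K : ℝ) * (4 * (n : ℝ) ^ (1 - γ₀) + 12 * n ^ 2 / N) ≤ (n : ℝ) ^ (1 - γ) := by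
      calc (K : ℝ) * (4 * (n : ℝ) ^ (1 - γ₀) + 12 * n ^ 2 / N)
          ≤ K * (4 * (n : ℝ) ^ (1 - γ₀) + 24 * (n : ℝ) ^ (1 - γ₀)) := by gcongr
        _ = 28 * K * (n : ℝ) ^ (1 - γ₀) := by ring
        _ ≤ (n : ℝ) ^ (γ₀ / 2) * (n : ℝ) ^ (1 - γ₀) := by gcongr
        _ = (n : ℝ) ^ (1 - γ₀ / 2) := by
            rw [← Real.rpow_add hn0]
            congr 1
            ring
        _ ≤ (n : ℝ) ^ (1 - γ) := Real.rpow_le_rpow_of_exponent_le hn1 (by linarith)
    linarith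
  · calc (K : ℝ) * (4 * (n : ℝ) ^ (δ / 2)) = 4 * K * (n : ℝ) ^ (δ / 2) := by ring
      _ ≤ (n : ℝ) ^ (δ / 2) * (n : ℝ) ^ (δ / 2) := by gcongr
      _ = (n : ℝ) ^ δ := by
          rw [← Real.rpow_add hn0]
          congr 1
          ring

end MP0775d3.Sum
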