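import Pool.Agent.Lib.MP_0775d3_lc.Sum.Blocks
import Pool.Agent.Lib.MP_0775d3_lc.Sum.Integer
import Pool.Agent.Lib.MP_0775d3_lc.Sum.Upper

/-! Characterisation of the sum matrices which can be rigid. -/

set_option linter.unusedSectionVars false

namespace MP0775d3.Sum

open Filter MP0775d3.Kron

universe u v

/-- The upper bound. -/
theorem upper' (δ : ℝ) (hδ : 0 < δ) : ∃ γ : ℝ, 0 < γ ∧ ∃ n₀ : ℕ, ∀ n : ℕ, n₀ ≤ n →
    ∀ (G : Type v) [AddCommGroup G] (t : ℕ), FinSubgroupsGen G t → (2 : ℝ) ^ t ≤ (n : ℝ) ^ γ →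
    ∀ (a b : Fin n → G), Function.Injective a → Function.Injective b →
    ∀ I J : Finset (Fin n), (numSums a b I J : ℝ) ≤ (n : ℝ) ^ (1 + γ) →
    ∀ (F : Type u) [Field F] (f : G → F),
    Dec (sumMatrix f a b) (((n : ℝ) - I.card) + ((n : ℝ) - J.card) + (n : ℝ) ^ (1 - γ))
      ((n : ℝ) ^ δ) := by
  obtain ⟨γ, hγ, n₀, h⟩ := upper.{u, 0} δ hδ
  refine ⟨γ / 2, by positivity, max n₀ 1, ?_⟩
  intro n hn G _ t hG ht a b ha hb I J hIJ F _ f
  have hn₀ : n₀ ≤ n := (le_max_left _ _).trans hn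
  have hn1 : (1 : ℝ) ≤ n := by exact_mod_cast (le_max_right _ _).trans hn
  have hn0 : (0 : ℝ) < n := by linarith
  obtain ⟨a', b', κ, κ', ha', hb', h2, h3, h4⟩ := exists_model' hG a b ha hb
  obtain ⟨f', hf'⟩ : ∃ f' : ℤ → F, ∀ i j, f' (a' i + b' j) = f (a i + b j) := by
    have h1 : Function.FactorsThrough (fun x : Fin n × Fin n => f (a x.1 + b x.2))
        (fun x : Fin n × Fin n => a' x.1 + b' x.2) := by
      intro x y hxy
      simp only at hxy ⊢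
      rw [h2 _ _ _ _ hxy]
    obtain ⟨e, he⟩ := (Function.factorsThrough_iff _).mp h1
    exact ⟨e, fun i j => (congrFun he (i, j)).symm⟩
  have hM : sumMatrix f a b = sumMatrix f' a' b' := by
    ext i j
    simp only [sumMatrix, Matrix.of_apply]
    exact (hf' i j).symm
  rw [hM]
  refine (h n hn₀ ℤ a' b' ha' hb' I J ?_ F f').mono ?_ le_rfl
  · have h5 : (numSums a' b' I J : ℝ) ≤ 2 ^ t * numSums a b I J := by exact_mod_cast h3 I J
    calc (numSums a' b' I J : ℝ) ≤ 2 ^ t * numSums a b I J := h5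
      _ ≤ (n : ℝ) ^ (γ / 2) * (n : ℝ) ^ (1 + γ / 2) := by gcongr
      _ = (n : ℝ) ^ (1 + γ) := by
          rw [← Real.rpow_add hn0]
          congr 1
          ring
  · have := Real.rpow_le_rpow_of_exponent_le hn1 (by linarith : 1 - γ ≤ 1 - γ / 2)
    linarith

/-- The lower bound: generic values, and integer values. -/
theorem lower_both {G : Type} [AddCommGroup G] {t : ℕ} (hG : FinSubgroupsGen G t) {n : ℕ}
    (a b : Fin n → G) (ha : Function.Injective a) (hb : Function.Injective b) (r s : ℝ)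
    (hrs : ∀ I J : Finset (Fin n), (n : ℝ) - 4 ^ t * r ≤ I.card → (n : ℝ) - 4 ^ t * r ≤ J.card →
      s < numSums a b I J) :
    (∀ (F : Type) [Field F] [CharZero F] (f : G → F),
      AlgebraicIndependent ℚ (fun x : {g : G | ∃ i j, a i + b j = g} => f x) →
      Rigid (sumMatrix f a b) r s) ∧
    ∃ f : G → ℤ, Rigid (sumMatrix (fun g => (f g : ℂ)) a b) r s := by
  have h1 : ∀ (F : Type) [Field F] [CharZero F] (f : G → F),
      AlgebraicIndependent ℚ (fun x : {g : G | ∃ i j, a i + b j = g} => f x) →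
      Rigid (sumMatrix f a b) r s := fun F _ _ f hf => lower' hG a b ha hb r s hrs f hf
  exact ⟨h1, exists_int a b r s h1⟩

/-- A low rank plus sparse matrix is not rigid. -/
theorem not_rigid {F : Type*} [Field F] {n : ℕ} {M : Matrix (Fin n) (Fin n) F} {r s : ℝ}
    (h : Dec M r s) : ¬ Rigid M r (n * s) := by
  classical
  obtain ⟨R, S, e1, e2, e3⟩ := h
  intro hr
  have h7 := hr R S e1 e2
  have h9 : ({p : Fin n × Fin n | S p.1 p.2 ≠ 0} : Set (Fin n × Fin n)).ncard =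
      ∑ i, ({j | S i j ≠ 0} : Set (Fin n)).ncard := by
    have e5 : ({p : Fin n × Fin n | S p.1 p.2 ≠ 0} : Set (Fin n × Fin n)).ncard =
        (Finset.univ.filter (fun p : Fin n × Fin n => S p.1 p.2 ≠ 0)).card := by
      rw [← Set.ncard_coe_finset]
      congr 1
      ext x
      simp
    have e6 : ∀ i, ({j | S i j ≠ 0} : Set (Fin n)).ncard =
        (Finset.univ.filter (fun j => S i j ≠ 0)).card := by
      intro i
      rw [← Set.ncard_coe_finset]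
      congr 1
      ext x
      simp
    rw [e5, Finset.sum_congr rfl (fun i _ => e6 i), Finset.card_filter]
    simp only [Finset.card_filter]
    rw [← Fintype.sum_prod_type' (f := fun i j => if S i j ≠ 0 then 1 else 0)]
  have h8 : (({p : Fin n × Fin n | S p.1 p.2 ≠ 0} : Set (Fin n × Fin n)).ncard : ℝ) ≤ n * s := by
    rw [h9]
    push_cast
    calc ∑ i, (({j | S i j ≠ 0} : Set (Fin n)).ncard : ℝ) ≤ ∑ _i : Fin n, s :=
          Finset.sum_le_sum fun i _ => e3.1 i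
      _ = n * s := by
          rw [Finset.sum_const, Finset.card_univ, Fintype.card_fin, nsmul_eq_mul]
  linarith

theorem Rigid.mono {F : Type*} [Field F] {n : ℕ} {M : Matrix (Fin n) (Fin n) F} {r s r' s' : ℝ}
    (h : Rigid M r s) (hr : r' ≤ r) (hs : s' ≤ s) : Rigid M r' s' :=
  fun R S e1 e2 => hs.trans_lt (h R S e1 (e2.trans hr))

section

variable (G : ℕ → Type) [∀ n, AddCommGroup (G n)] (t : ℕ) (hG : ∀ n, FinSubgroupsGen (G n) t)
    (a b : ∀ n, Fin n → G n) (ha : ∀ n, Function.Injective (a n))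
    (hb : ∀ n, Function.Injective (b n))

include hG ha hb in
/-- Growth of the sumsets gives rigid matrices. -/
theorem rigid_of_growth
    (h : ∃ ε > (0 : ℝ), ∃ δ > (0 : ℝ), ∀ᶠ n : ℕ in atTop, ∀ I J : Finset (Fin n),
      (1 - ε) * n ≤ I.card → (1 - ε) * n ≤ J.card →
      (n : ℝ) ^ (1 + δ) ≤ numSums (a n) (b n) I J) :
    ∃ f : ∀ n, G n → ℤ, ∃ ε > (0 : ℝ), ∃ δ > (0 : ℝ), ∀ᶠ n : ℕ in atTop,
      Rigid (sumMatrix (fun g => (f n g : ℂ)) (a n) (b n)) (ε * n) ((n : ℝ) ^ (1 + δ)) := by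
  classical
  obtain ⟨ε, hε, δ, hδ, h⟩ := h
  have key : ∀ᶠ n : ℕ in atTop, ∃ f : G n → ℤ,
      Rigid (sumMatrix (fun g => (f g : ℂ)) (a n) (b n)) (ε / 4 ^ t * n)
        ((n : ℝ) ^ (1 + δ / 2)) := by
    filter_upwards [h, eventually_ge_atTop 2] with n h1 h2
    have hn1 : (1 : ℝ) < n := by exact_mod_cast (by omega : 1 < n)
    refine (lower_both (hG n) (a n) (b n) (ha n) (hb n) _ _ ?_).2
    intro I J hI hJ
    have h3 : (4 : ℝ) ^ t * (ε / 4 ^ t * n) = ε * n := by field_simp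
    rw [h3] at hI hJ
    refine lt_of_lt_of_le ?_ (h1 I J ?_ ?_)
    · exact Real.rpow_lt_rpow_of_exponent_lt hn1 (by linarith)
    · linarith
    · linarith
  refine ⟨fun n => if hn : ∃ f : G n → ℤ,
      Rigid (sumMatrix (fun g => (f g : ℂ)) (a n) (b n)) (ε / 4 ^ t * n)
        ((n : ℝ) ^ (1 + δ / 2)) then hn.choose else fun _ => 0,
    ε / 4 ^ t, by positivity, δ / 2, by positivity, ?_⟩
  filter_upwards [key] with n hn
  simp only [dif_pos hn]
  exact hn.choose_spec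

/-- Valiant rigid matrices are not low rank plus sparse. -/
theorem not_dec_of_rigid
    (h : ∃ f : ∀ n, G n → ℤ, ∃ ε > (0 : ℝ), ∃ δ > (0 : ℝ), ∀ᶠ n : ℕ in atTop,
      Rigid (sumMatrix (fun g => (f n g : ℂ)) (a n) (b n)) (ε * n) ((n : ℝ) ^ (1 + δ))) :
    ∃ ε > (0 : ℝ), ∃ δ > (0 : ℝ), ∀ᶠ n : ℕ in atTop, ∃ (F : Type) (_ : Field F) (f : G n → F),
      ¬ Dec (sumMatrix f (a n) (b n)) (ε * n) ((n : ℝ) ^ δ) := by
  obtain ⟨f, ε, hε, δ, hδ, h⟩ := h
  refine ⟨ε, hε, δ, hδ, ?_⟩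
  filter_upwards [h, eventually_ge_atTop 1] with n h1 h2
  refine ⟨ℂ, inferInstance, fun g => (f n g : ℂ), ?_⟩
  intro hd
  refine not_rigid hd ?_
  have hn0 : (0 : ℝ) < n := by exact_mod_cast h2
  rwa [Real.rpow_add hn0, Real.rpow_one] at h1

include hG ha hb in
/-- Without growth all sum matrices are low rank plus sparse. -/
theorem growth_of_not_dec
    (h : ∃ ε > (0 : ℝ), ∃ δ > (0 : ℝ), ∀ᶠ n : ℕ in atTop,
      ∃ (F : Type) (_ : Field F) (f : G n → F),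
      ¬ Dec (sumMatrix f (a n) (b n)) (ε * n) ((n : ℝ) ^ δ)) :
    ∃ ε > (0 : ℝ), ∃ δ > (0 : ℝ), ∀ᶠ n : ℕ in atTop, ∀ I J : Finset (Fin n),
      (1 - ε) * n ≤ I.card → (1 - ε) * n ≤ J.card →
      (n : ℝ) ^ (1 + δ) ≤ numSums (a n) (b n) I J := by
  obtain ⟨ε, hε, δ, hδ, h⟩ := h
  obtain ⟨γ, hγ, n₀, hup⟩ := upper'.{0, 0} δ hδ
  refine ⟨ε / 4, by positivity, γ, hγ, ?_⟩
  filter_upwards [h, eventually_ge_atTop n₀, eventually_ge_atTop 1,
    rpow_eventually γ (2 / ε) hγ, rpow_eventually γ (2 ^ t) hγ] with n h1 h2 h3 h4 h5 I J hI hJ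
  by_contra hcon
  push Not at hcon
  have hn0 : (0 : ℝ) < n := by exact_mod_cast h3
  obtain ⟨F, _, f, hF⟩ := h1
  refine hF ((hup n h2 (G n) t (hG n) h5 (a n) (b n) (ha n) (hb n) I J hcon.le F f).mono ?_ le_rfl)
  have h6 : (n : ℝ) ^ (1 - γ) ≤ ε / 2 * n := by
    rw [Real.rpow_sub hn0, Real.rpow_one, div_le_iff₀ (by positivity)]
    rw [div_le_iff₀ hε] at h4
    nlinarith
  linarith

include hG ha hb in
theorem characterisation : List.TFAE [
    ∃ f : ∀ n, G n → ℤ, ∃ ε > (0 : ℝ), ∃ δ > (0 : ℝ), ∀ᶠ n : ℕ in atTop,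
      Rigid (sumMatrix (fun g => (f n g : ℂ)) (a n) (b n)) (ε * n) ((n : ℝ) ^ (1 + δ)),
    ∃ ε > (0 : ℝ), ∃ δ > (0 : ℝ), ∀ᶠ n : ℕ in atTop,
      ∃ (F : Type) (_ : Field F) (f : G n → F),
        ¬ Dec (sumMatrix f (a n) (b n)) (ε * n) ((n : ℝ) ^ δ),
    ∃ ε > (0 : ℝ), ∃ δ > (0 : ℝ), ∀ᶠ n : ℕ in atTop, ∀ I J : Finset (Fin n),
      (1 - ε) * n ≤ I.card → (1 - ε) * n ≤ J.card →
      (n : ℝ) ^ (1 + δ) ≤ numSums (a n) (b n) I J] := by
  tfae_have 1 → 2 := not_dec_of_rigid G a b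
  tfae_have 2 → 3 := growth_of_not_dec G t hG a b ha hb
  tfae_have 3 → 1 := rigid_of_growth G t hG a b ha hb
  tfae_finish

end

end MP0775d3.Sum
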