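import Pool.Agent.Lib.MP_0775d3_lc.Sum.Defs

/-! Finitely generated subgroups of groups whose finite subgroups need few generators. -/

namespace MP0775d3.Sum

/-- A finite abelian group with `t` generators is a product of `t` finite cyclic groups. -/
theorem exists_cyclic {D : Type*} [AddCommGroup D] [Finite D] {t : ℕ} (w : Fin t → D)
    (hw : AddSubgroup.closure (Set.range w) = ⊤) :
    ∃ c : Fin t → ℕ, (∀ i, 0 < c i) ∧ Nonempty (D ≃+ ∀ i, ZMod (c i)) := by
  let s : (Fin t → ℤ) →ₗ[ℤ] D := Fintype.linearCombination ℤ w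
  have hs : Function.Surjective s := by
    rw [← LinearMap.range_eq_top, Fintype.range_linearCombination]
    have h1 : (Submodule.span ℤ (Set.range w)).toAddSubgroup = ⊤ := by
      rw [Submodule.span_int_eq_addSubgroupClosure, hw]
    exact Submodule.toAddSubgroup_injective (h1.trans Submodule.top_toAddSubgroup.symm)
  let e := s.quotKerEquivOfSurjective hs
  have hfin : Finite ((Fin t → ℤ) ⧸ LinearMap.ker s) := Finite.of_equiv D e.symm.toEquiv
  have hrank := (Submodule.finiteQuotient_iff (LinearMap.ker s)).mp hfin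
  let b : Module.Basis (Fin t) ℤ (Fin t → ℤ) := Pi.basisFun ℤ (Fin t)
  let e2 := (LinearMap.ker s).quotientEquivPiZMod b hrank
  exact ⟨fun i => (Submodule.smithNormalFormCoeffs b hrank i).natAbs,
    fun i => Int.natAbs_pos.mpr (Submodule.smithNormalFormCoeffs_ne_zero b hrank i),
    ⟨e.symm.toAddEquiv.trans e2⟩⟩

/-- The structure of the finitely generated subgroups. -/
theorem exists_structure {G : Type*} [AddCommGroup G] {t : ℕ} (hG : FinSubgroupsGen G t)
    (X : Set G) (hX : X.Finite) :
    ∃ (r : ℕ) (c : Fin t → ℕ), (∀ i, 0 < c i) ∧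
      Nonempty (AddSubgroup.closure X ≃+ (Fin r → ℤ) × (∀ i, ZMod (c i))) := by
  classical
  have hfg : (AddSubgroup.closure X).FG := by
    rw [AddSubgroup.fg_iff]
    exact ⟨_, rfl, hX⟩
  have : AddGroup.FG (AddSubgroup.closure X) := (AddGroup.fg_iff_addSubgroup_fg _).mpr hfg
  obtain ⟨r, ι, _, p, hp, e, ⟨f⟩⟩ :=
    AddCommGroup.equiv_free_prod_directSum_zmod (AddSubgroup.closure X)
  have hne : ∀ i, NeZero (p i ^ e i) := fun i => ⟨pow_ne_zero _ (hp i).ne_zero⟩
  let D := DirectSum ι (fun i => ZMod (p i ^ e i))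
  have hD : Finite D := Finite.of_equiv _ (DirectSum.addEquivProd (fun i => ZMod (p i ^ e i))).symm.toEquiv
  let φ : D →+ G := (AddSubgroup.closure X).subtype.comp
    (f.symm.toAddMonoidHom.comp (AddMonoidHom.inr (Fin r →₀ ℤ) D))
  have hφ : Function.Injective φ := by
    intro x y hxy
    have h1 : f.symm (0, x) = f.symm (0, y) := Subtype.ext hxy
    have h2 := f.symm.injective h1
    exact (Prod.ext_iff.mp h2).2
  obtain ⟨v, hv⟩ := hG φ.range (Set.finite_range φ).to_subtype
  have hvr : ∀ i, ∃ d : D, φ d = v i := by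
    intro i
    have : v i ∈ φ.range := by
      rw [← hv]
      exact AddSubgroup.subset_closure ⟨i, rfl⟩
    exact this
  choose w hw using hvr
  have hwt : AddSubgroup.closure (Set.range w) = ⊤ := by
    rw [eq_top_iff]
    intro d _
    have h1 : φ d ∈ AddSubgroup.closure (Set.range v) := by
      rw [hv]
      exact ⟨d, rfl⟩
    have h2 : Set.range v = φ '' Set.range w := by
      rw [← Set.range_comp]
      congr 1
      funext i
      exact (hw i).symm
    rw [h2, ← AddMonoidHom.map_closure] at h1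
    obtain ⟨d', hd', hdd⟩ := h1
    rwa [← hφ hdd]
  obtain ⟨c, hc, ⟨g⟩⟩ := exists_cyclic w hwt
  refine ⟨r, c, hc, ⟨f.trans (AddEquiv.prodCongr ?_ g)⟩⟩
  exact (Finsupp.linearEquivFunOnFinite ℤ ℤ (Fin r)).toAddEquiv

end MP0775d3.Sum
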